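import Mathlib

/-!
Basics on generalized ordered (GO) spaces, `ω₁`-like well-orders, countably compact sets,
hereditarily Σ spaces (relative formulation).
-/

set_option autoImplicit false
set_option linter.unusedSectionVars false
open Set Topology Filter

namespace Pool.Agent.H893R2

/-! ### ω₁-like orders -/

/-- an uncountable well-order all of whose proper initial segments are countable -/
class IsOm (I : Type*) [LinearOrder I] : Prop where
  wf : WellFoundedLT I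
  cb : ∀ i : I, (Iio i).Countable
  unc : ¬ (univ : Set I).Countable
  inj : ∃ r : I → ℕ → Bool, Function.Injective r

namespace IsOm

section
variable {I : Type*} [LinearOrder I] [hI : IsOm I]

theorem cbc (i : I) : (Iic i).Countable := by
  have : Iic i = insert i (Iio i) := by
    ext x
    simp [le_iff_eq_or_lt]
  rw [this]
  exact (IsOm.cb i).insert i

theorem bdd {A : Set I} (hA : A.Countable) : ∃ b, ∀ a ∈ A, a < b := by
  by_contra h
  push Not at h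
  apply IsOm.unc (I := I)
  have h2 : (⋃ a ∈ A, Iic a).Countable := hA.biUnion (fun a _ => cbc a)
  apply h2.mono
  intro x _
  obtain ⟨a, ha, hxa⟩ := h x
  simp only [mem_iUnion]
  exact ⟨a, ha, hxa⟩

theorem exmin {P : Set I} (h : P.Nonempty) : ∃ m ∈ P, ∀ x ∈ P, m ≤ x := by
  have := hI.wf
  refine ⟨WellFounded.min (wellFounded_lt (α := I)) P h, WellFounded.min_mem _ _ _, ?_⟩
  intro x hx
  exact not_lt.1 (WellFounded.not_lt_min _ _ hx)

theorem exsc (i : I) : ∃ s, i < s ∧ ∀ j, i < j → s ≤ j := by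
  obtain ⟨b, hb⟩ := bdd (I := I) (countable_singleton i)
  obtain ⟨m, hm, hm2⟩ := exmin (I := I) (P := Ioi i) ⟨b, hb i rfl⟩
  exact ⟨m, hm, fun j hj => hm2 j hj⟩

/-- successor -/
noncomputable def sc (i : I) : I := (exsc i).choose

theorem lt_sc (i : I) : i < sc i := (exsc i).choose_spec.1
theorem sc_le {i j : I} (h : i < j) : sc i ≤ j := (exsc i).choose_spec.2 j h
theorem le_of_lt_sc {i j : I} (h : j < sc i) : j ≤ i := by
  by_contra h2
  exact absurd (sc_le (not_le.1 h2)) (not_le.2 h)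

/-- limit element -/
def Lim (δ : I) : Prop := (∃ i, i < δ) ∧ ∀ i < δ, ∃ j, i < j ∧ j < δ

theorem Lim.sc_lt {δ i : I} (h : Lim δ) (hi : i < δ) : sc i < δ := by
  obtain ⟨j, h1, h2⟩ := h.2 i hi
  exact (sc_le h1).trans_lt h2

theorem not_lim_sc (i : I) : ¬ Lim (sc i) := by
  intro h
  obtain ⟨j, h1, h2⟩ := h.2 i (lt_sc i)
  exact absurd (le_of_lt_sc h2) (not_le.2 h1)

theorem not_lim {δ : I} (h : ¬ Lim δ) (hne : ∃ i, i < δ) : ∃ i, i < δ ∧ ∀ j < δ, j ≤ i := by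
  by_contra h2
  apply h
  refine ⟨hne, ?_⟩
  intro i hi
  by_contra h3
  push Not at h3
  exact h2 ⟨i, hi, fun j hj => by
    by_contra h4
    exact absurd hj (not_lt.2 (h3 j (not_le.1 h4)))⟩

/-- closed under `g` -/
def Cl (g : I → I) (δ : I) : Prop := Lim δ ∧ ∀ γ < δ, g γ < δ

theorem exists_closed (g : I → I) (i : I) : ∃ δ, i < δ ∧ Cl g δ := by
  have h1 : ∀ γ : I, ∃ b, γ < b ∧ ∀ γ' ≤ γ, g γ' < b := by
    intro γ
    obtain ⟨b, hb⟩ := bdd (I := I) (A := insert γ (g '' Iic γ)) (((cbc γ).image g).insert γ)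
    exact ⟨b, hb γ (mem_insert _ _), fun γ' h => hb _ (mem_insert_of_mem _ ⟨γ', h, rfl⟩)⟩
  choose g' hg1 hg2 using h1
  let a : ℕ → I := fun n => g'^[n] i
  have ha : ∀ n, a (n+1) = g' (a n) := fun n => Function.iterate_succ_apply' g' n i
  obtain ⟨b, hb⟩ := bdd (I := I) (A := range a) (countable_range a)
  obtain ⟨δ, hδ, hδ2⟩ := exmin (I := I) (P := {b | ∀ n, a n < b}) ⟨b, fun n => hb _ ⟨n, rfl⟩⟩
  have hδ3 : ∀ γ < δ, ∃ n, γ ≤ a n := by
    intro γ hγ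
    by_contra h
    push Not at h
    exact absurd (hδ2 γ h) (not_le.2 hγ)
  refine ⟨δ, hδ 0, ⟨⟨i, hδ 0⟩, ?_⟩, ?_⟩
  · intro γ hγ
    obtain ⟨n, hn⟩ := hδ3 γ hγ
    refine ⟨a (n+1), hn.trans_lt ?_, hδ _⟩
    rw [ha]
    exact hg1 _
  · intro γ hγ
    obtain ⟨n, hn⟩ := hδ3 γ hγ
    have := hg2 (a n) γ hn
    rw [← ha] at this
    exact this.trans (hδ _)

theorem unc_of_unbdd {S : Set I} (h : ∀ i, ∃ s ∈ S, i < s) : ¬ S.Countable := by
  intro hS
  obtain ⟨b, hb⟩ := bdd hS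
  obtain ⟨s, hs, hbs⟩ := h b
  exact absurd (hb s hs) (not_lt.2 hbs.le)

theorem sub {S : Set I} (h : ¬ S.Countable) : IsOm ↥S := by
  have := hI.wf
  refine ⟨?_, ?_, ?_, ?_⟩
  · infer_instance
  · intro i
    have h1 : (Subtype.val ⁻¹' (Iio (i : I)) : Set ↥S).Countable :=
      (IsOm.cb (i : I)).preimage Subtype.val_injective
    exact h1.mono (fun x hx => hx)
  · intro h2
    apply h
    rw [← Set.countable_coe_iff]
    exact Set.countable_univ_iff.1 h2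
  · obtain ⟨r, hr⟩ := IsOm.inj (I := I)
    exact ⟨fun i => r i, fun a b hab => Subtype.ext (hr hab)⟩

/-- splitting set: meets, together with its complement, all closed unbounded sets. -/
theorem exists_split : ∃ Y : Set I, (∀ g : I → I, ∃ δ ∈ Y, Cl g δ) ∧ (∀ g : I → I, ∃ δ ∉ Y, Cl g δ) := by
  obtain ⟨r, hr⟩ := IsOm.inj (I := I)
  by_contra hno
  have h1 : ∀ n : ℕ, ∃ (g : I → I) (b : Bool), ∀ δ, Cl g δ → r δ n = b := by
    intro n
    by_contra hn
    push Not at hn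
    apply hno
    refine ⟨{i | r i n = true}, ?_, ?_⟩
    · intro g
      obtain ⟨δ, h1, h2⟩ := hn g false
      exact ⟨δ, by simpa using h2, h1⟩
    · intro g
      obtain ⟨δ, h1, h2⟩ := hn g true
      exact ⟨δ, by simpa using h2, h1⟩
  choose g b hgb using h1
  have h2 : ∀ γ : I, ∃ c, ∀ n, g n γ < c := by
    intro γ
    obtain ⟨c, hc⟩ := bdd (I := I) (A := range fun n => g n γ) (countable_range _)
    exact ⟨c, fun n => hc _ ⟨n, rfl⟩⟩
  choose G hG using h2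
  obtain ⟨i0⟩ : Nonempty I := by
    by_contra h
    rw [not_nonempty_iff] at h
    exact IsOm.unc (I := I) (Set.to_countable _)
  obtain ⟨δ, hδ1, hδ2⟩ := exists_closed G i0
  obtain ⟨ε, hε1, hε2⟩ := exists_closed G δ
  have key : ∀ δ, Cl G δ → r δ = b := by
    intro δ hδ
    ext n
    exact hgb n δ ⟨hδ.1, fun γ hγ => (hG γ n).trans (hδ.2 γ hγ)⟩
  exact hε1.ne (hr ((key δ hδ2).trans (key ε hε2).symm))

/-- transfinite increasing sequences. -/
theorem exists_strictMono {X : Type*} [LinearOrder X] (P : Set X)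
    (h : ∀ A ⊆ P, A.Countable → ∃ x ∈ P, ∀ a ∈ A, a < x) :
    ∃ f : I → X, StrictMono f ∧ ∀ i, f i ∈ P := by
  classical
  have := hI.wf
  obtain ⟨x0, hx0, -⟩ := h ∅ (empty_subset _) countable_empty
  have h' : ∀ A : Set X, ∃ x, A ⊆ P → A.Countable → x ∈ P ∧ ∀ a ∈ A, a < x := by
    intro A
    by_cases hA : A ⊆ P ∧ A.Countable
    · obtain ⟨x, hx⟩ := h A hA.1 hA.2
      exact ⟨x, fun _ _ => hx⟩
    · exact ⟨x0, fun h1 h2 => absurd ⟨h1, h2⟩ hA⟩
  choose e he using h'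
  let f : I → X := (wellFounded_lt (α := I)).fix
    (fun i ih => e {x | ∃ j, ∃ h : j < i, ih j h = x})
  have hf : ∀ i, f i = e (f '' Iio i) := by
    intro i
    have := (wellFounded_lt (α := I)).fix_eq
      (fun i (ih : (j : I) → j < i → X) => e {x | ∃ j, ∃ h : j < i, ih j h = x}) i
    change f i = _ at this
    rw [this]
    congr 1
    ext x
    constructor
    · rintro ⟨j, hj, rfl⟩
      exact ⟨j, hj, rfl⟩
    · rintro ⟨j, hj, rfl⟩
      exact ⟨j, hj, rfl⟩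
  have hP : ∀ i, f i ∈ P := by
    intro i
    induction i using (wellFounded_lt (α := I)).induction with
    | _ i ih =>
      rw [hf]
      refine (he _ ?_ ((IsOm.cb i).image f)).1
      rintro _ ⟨j, hj, rfl⟩
      exact ih j hj
  refine ⟨f, ?_, hP⟩
  intro j i hji
  have := (he (f '' Iio i) (by rintro _ ⟨j, hj, rfl⟩; exact hP j) ((IsOm.cb i).image f)).2 (f j) ⟨j, hji, rfl⟩
  rw [← hf] at this
  exact this

end

end IsOm

/-- a concrete `ω₁` -/
abbrev Om : Type := (Cardinal.aleph 1).ord.ToType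

instance : IsOm Om where
  wf := inferInstance
  cb i := by
    rw [← Cardinal.le_aleph0_iff_set_countable, ← Cardinal.lt_aleph_one_iff]
    have := Cardinal.mk_Iio_lt i (by simp)
    simpa using this
  unc := by
    rw [← Cardinal.le_aleph0_iff_set_countable, ← Cardinal.lt_aleph_one_iff]
    simp
  inj := by
    have h : Cardinal.mk Om ≤ Cardinal.mk (ℕ → Bool) := by
      simp only [Cardinal.mk_toType, Cardinal.card_ord, Cardinal.mk_pi, Cardinal.mk_bool,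
        Cardinal.prod_const, Cardinal.lift_id, Cardinal.mk_nat]
      rw [Cardinal.two_power_aleph0]
      exact Cardinal.aleph_one_le_continuum
    obtain ⟨f⟩ := h
    exact ⟨f, f.injective⟩

/-- an increasing cofinal sequence in a countable set without maximum -/
theorem exists_seq {X : Type*} [LinearOrder X] {A : Set X} (hc : A.Countable) (hne : A.Nonempty)
    (hm : ∀ a ∈ A, ∃ b ∈ A, a < b) :
    ∃ s : ℕ → X, StrictMono s ∧ (∀ n, s n ∈ A) ∧ ∀ a ∈ A, ∃ n, a < s n := by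
  obtain ⟨e, he⟩ := hc.exists_eq_range hne
  have hmem : ∀ n, e n ∈ A := fun n => by rw [he]; exact ⟨n, rfl⟩
  have h1 : ∀ (n : ℕ) (a : A), ∃ b : A, (a : X) < b ∧ e n < b := by
    intro n a
    obtain ⟨b, hb, hab⟩ := hm (max a (e n)) (by
      rcases max_choice (a : X) (e n) with h | h <;> rw [h]
      · exact a.2
      · exact hmem n)
    exact ⟨⟨b, hb⟩, (le_max_left _ _).trans_lt hab, (le_max_right _ _).trans_lt hab⟩
  choose f hf1 hf2 using h1
  let s : ℕ → A := fun n => Nat.rec ⟨e 0, hmem 0⟩ (fun n a => f n a) n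
  refine ⟨fun n => (s n).1, ?_, ?_, ?_⟩
  · apply strictMono_nat_of_lt_succ
    intro n
    exact hf1 n (s n)
  · intro n
    exact (s n).2
  · intro a ha
    rw [he] at ha
    obtain ⟨n, rfl⟩ := ha
    exact ⟨n+1, hf2 n (s n)⟩

/-! ### GO spaces -/

/-- generalized ordered space -/
structure IsGO (X : Type*) [LinearOrder X] [TopologicalSpace X] : Prop where
  oi : ∀ a : X, IsOpen (Ioi a)
  io : ∀ a : X, IsOpen (Iio a)
  bas : ∀ x : X, ∀ U ∈ 𝓝 x, ∃ V ⊆ U, IsOpen V ∧ V.OrdConnected ∧ x ∈ V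

/-- countably compact set (relative) -/
def CC {X : Type*} [TopologicalSpace X] (K : Set X) : Prop :=
  ∀ u : ℕ → Set X, (∀ n, IsOpen (u n)) → K ⊆ ⋃ n, u n → ∃ t : Finset ℕ, K ⊆ ⋃ n ∈ t, u n

/-- relative Σ-network of the subspace `Z` -/
structure Sig {X : Type*} [TopologicalSpace X] (Z : Set X) (F : ℕ → Set (Set X))
    (κ : X → Set X) : Prop where
  sub : ∀ n, ∀ s ∈ F n, s ⊆ Z
  lf : ∀ n, ∀ z ∈ Z, ∃ V ∈ 𝓝 z, {s ∈ F n | (s ∩ V).Nonempty}.Finite
  mem : ∀ z ∈ Z, z ∈ κ z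
  ksub : ∀ z ∈ Z, κ z ⊆ Z
  cc : ∀ z ∈ Z, CC (κ z)
  net : ∀ z ∈ Z, ∀ U : Set X, IsOpen U → κ z ⊆ U → ∃ n, ∃ s ∈ F n, κ z ⊆ s ∧ s ⊆ U

/-- hereditarily Σ -/
def HS (X : Type*) [TopologicalSpace X] : Prop :=
  ∀ Z : Set X, ∃ F κ, Sig Z F κ

section dual
variable {X : Type*} [LinearOrder X] [TopologicalSpace X]

theorem IsGO.dual (h : IsGO X) : IsGO Xᵒᵈ := by
  refine ⟨fun a => h.io a, fun a => h.oi a, ?_⟩
  intro x U hU
  obtain ⟨V, h1, h2, h3, h4⟩ := h.bas x U hU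
  exact ⟨V, h1, h2, ⟨fun a ha b hb c hc => h3.out hb ha ⟨hc.2, hc.1⟩⟩, h4⟩

theorem HS.dual (h : HS X) : HS Xᵒᵈ := h

end dual

section lemmas
variable {X : Type*} [LinearOrder X] [TopologicalSpace X]

theorem IsGO.cIic (h : IsGO X) (a : X) : IsClosed (Iic a) := by
  rw [← isOpen_compl_iff, compl_Iic]
  exact h.oi a

theorem IsGO.cIci (h : IsGO X) (a : X) : IsClosed (Ici a) := by
  rw [← isOpen_compl_iff, compl_Ici]
  exact h.io a

/-- Lemma 1 -/
theorem CC.lub (h : IsGO X) {K : Set X} (hK : CC K) {s : ℕ → X} (hs : StrictMono s)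
    (hsK : ∀ n, s n ∈ K) : ∃ p ∈ K, (∀ n, s n < p) ∧ (∀ b, (∀ n, s n ≤ b) → p ≤ b) ∧
      p ∈ closure (range s) := by
  by_cases h1 : K ⊆ ⋃ n, (closure (s '' Ici n))ᶜ
  · exfalso
    obtain ⟨t, ht⟩ := hK _ (fun n => isClosed_closure.isOpen_compl) h1
    obtain ⟨N, hN⟩ := t.exists_le
    have h2 := ht (hsK N)
    simp only [mem_iUnion] at h2
    obtain ⟨n, hn, h3⟩ := h2
    exact h3 (subset_closure ⟨N, hN n hn, rfl⟩)
  · rw [not_subset] at h1
    obtain ⟨p, hp, hp2⟩ := h1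
    simp only [mem_iUnion, mem_compl_iff, not_exists, not_not] at hp2
    have h3 : ∀ n, s n ≤ p := by
      intro n
      have : closure (s '' Ici n) ⊆ Ici (s n) := by
        apply closure_minimal _ (h.cIci _)
        rintro _ ⟨m, hm, rfl⟩
        exact hs.monotone hm
      exact this (hp2 n)
    refine ⟨p, hp, fun n => (hs (Nat.lt_succ_self n)).trans_le (h3 _), ?_, ?_⟩
    · intro b hb
      have : closure (s '' Ici 0) ⊆ Iic b := by
        apply closure_minimal _ (h.cIic _)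
        rintro _ ⟨m, hm, rfl⟩
        exact hb m
      exact this (hp2 0)
    · exact closure_mono (image_subset_range _ _) (hp2 0)

/-- set version: a countable cofinal set without max in a countably compact set -/
theorem CC.lubset (h : IsGO X) {K : Set X} (hK : CC K) {A : Set X} (hA : A ⊆ K)
    (hc : A.Countable) (hne : A.Nonempty) (hm : ∀ a ∈ A, ∃ b ∈ A, a < b) :
    ∃ p ∈ K, (∀ a ∈ A, a < p) ∧ (∀ b, (∀ a ∈ A, a ≤ b) → p ≤ b) ∧ p ∈ closure A := by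
  obtain ⟨s, hs1, hs2, hs3⟩ := exists_seq hc hne hm
  obtain ⟨p, hp, h1, h2, h3⟩ := hK.lub h hs1 (fun n => hA (hs2 n))
  refine ⟨p, hp, ?_, ?_, ?_⟩
  · intro a ha
    obtain ⟨n, hn⟩ := hs3 a ha
    exact hn.trans (h1 n)
  · intro b hb
    exact h2 b (fun n => hb _ (hs2 n))
  · exact closure_mono (by rintro _ ⟨n, rfl⟩; exact hs2 n) h3

open IsOm in
/-- Lemma 3: no `ω₁`-sequence in a countably compact set -/
theorem CC.no_seq {I : Type*} [LinearOrder I] [IsOm I] (h : IsGO X) (hs : HS X) {K : Set X}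
    (hK : CC K) (k : I → X) (hk : StrictMono k) (hkK : ∀ i, k i ∈ K) : False := by
  classical
  have h1 : ∀ i : I, ∃ p ∈ K, p ≤ k i ∧ (∀ j < i, k j < p) ∧
      (Lim i → (∀ b, (∀ j < i, k j ≤ b) → p ≤ b) ∧ p ∈ closure (k '' Iio i)) := by
    intro i
    by_cases hl : Lim i
    · obtain ⟨p, hp, h1, h2, h3⟩ := hK.lubset h (A := k '' Iio i)
        (by rintro _ ⟨j, -, rfl⟩; exact hkK j) ((IsOm.cb i).image k)
        (by obtain ⟨j, hj⟩ := hl.1; exact ⟨k j, j, hj, rfl⟩)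
        (by
          rintro _ ⟨j, hj, rfl⟩
          obtain ⟨l, hl1, hl2⟩ := hl.2 j hj
          exact ⟨k l, ⟨l, hl2, rfl⟩, hk hl1⟩)
      refine ⟨p, hp, ?_, ?_, fun _ => ⟨?_, h3⟩⟩
      · apply h2
        rintro _ ⟨j, hj, rfl⟩
        exact (hk hj).le
      · intro j hj
        exact h1 _ ⟨j, hj, rfl⟩
      · intro b hb
        apply h2
        rintro _ ⟨j, hj, rfl⟩
        exact hb j hj
    · exact ⟨k i, hkK i, le_rfl, fun j hj => hk hj, fun h => absurd h hl⟩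
  choose w hwK hwk hkw hwl using h1
  have hw : StrictMono w := fun j i hji => (hwk j).trans_lt (hkw i j hji)
  have hcont : ∀ δ, Lim δ → ∀ V ∈ 𝓝 (w δ), ∃ γ < δ, ∀ j, γ < j → j < δ → w j ∈ V := by
    intro δ hδ V hV
    obtain ⟨W, hWV, hWo, hWc, hWm⟩ := h.bas _ _ hV
    obtain ⟨_, h2, ⟨γ, hγ, rfl⟩⟩ := mem_closure_iff.1 (hwl δ hδ).2 W hWo hWm
    refine ⟨γ, hγ, fun j hj1 hj2 => hWV (hWc.out h2 hWm ⟨?_, ?_⟩)⟩
    · exact (hkw j γ hj1).le
    · exact (hw hj2).le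
  obtain ⟨Y, hY1, hY2⟩ := IsOm.exists_split (I := I)
  obtain ⟨F, κ, S⟩ := hs (w '' Y)
  -- (a)
  have ha : ∀ i ∈ Y, ∃ b, ∀ x ∈ κ (w i), x < w b := by
    intro i hi
    by_contra hno
    push Not at hno
    have hZ : w i ∈ w '' Y := ⟨i, hi, rfl⟩
    have h2 : ∀ γ : I, ∃ j, γ < j ∧ w j ∈ κ (w i) := by
      intro γ
      obtain ⟨x, hx, hx2⟩ := hno (sc γ)
      obtain ⟨j, hj, rfl⟩ := S.ksub _ hZ hx
      exact ⟨j, (lt_sc γ).trans_le (hw.le_iff_le.1 hx2), hx⟩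
    choose g hg1 hg2 using h2
    obtain ⟨δ, hδY, hδ, hδ2⟩ := hY2 g
    obtain ⟨p, hp, hp1, hp2, hp3⟩ := (S.cc _ hZ).lubset h (A := (fun γ => w (g γ)) '' Iio δ)
      (by rintro _ ⟨j, -, rfl⟩; exact hg2 j) ((IsOm.cb δ).image _)
      (by obtain ⟨j, hj⟩ := hδ.1; exact ⟨w (g j), j, hj, rfl⟩)
      (by
        rintro _ ⟨j, hj, rfl⟩
        exact ⟨w (g (g j)), ⟨g j, hδ2 j hj, rfl⟩, hw (hg1 _)⟩)
    have hpw : p = w δ := by
      apply le_antisymm
      · apply hp2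
        rintro _ ⟨j, hj, rfl⟩
        exact (hw (hδ2 j hj)).le
      · apply (hwl δ hδ).1
        intro j hj
        exact ((hkw _ _ (hg1 j)).trans (hp1 _ ⟨j, hj, rfl⟩)).le
    subst hpw
    obtain ⟨j, hj, hj2⟩ := S.ksub _ hZ hp
    exact hδY (hw.injective hj2 ▸ hj)
  -- (b)
  have hb : ∀ (n : ℕ) (γ : I), ∃ B : I,
      (∀ s ∈ F n, (∃ j, γ < j ∧ w j ∈ s) → (∃ b, s ⊆ Iio (w b)) → s ⊆ Iio (w B)) ∨
      {s ∈ F n | ∃ j, γ < j ∧ j < B ∧ w j ∈ s}.Infinite := by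
    intro n γ
    by_cases hc : {s ∈ F n | (∃ j, γ < j ∧ w j ∈ s) ∧ (∃ b, s ⊆ Iio (w b))}.Countable
    · have h2 : ∀ s : Set X, ∃ b, (∃ b, s ⊆ Iio (w b)) → s ⊆ Iio (w b) := by
        intro s
        by_cases h3 : ∃ b, s ⊆ Iio (w b)
        · obtain ⟨b, hb⟩ := h3
          exact ⟨b, fun _ => hb⟩
        · exact ⟨γ, fun h4 => absurd h4 h3⟩
      choose b hb using h2
      obtain ⟨B, hB⟩ := IsOm.bdd (hc.image b)
      refine ⟨B, Or.inl ?_⟩
      intro s hs h3 h4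
      refine (hb s h4).trans ?_
      intro x hx
      exact lt_trans hx (hw (hB _ ⟨s, ⟨hs, h3, h4⟩, rfl⟩))
    · have hinf : {s ∈ F n | (∃ j, γ < j ∧ w j ∈ s) ∧ (∃ b, s ⊆ Iio (w b))}.Infinite :=
        fun hf => hc hf.countable
      let e := hinf.natEmbedding
      have h2 : ∀ m : ℕ, ∃ j, γ < j ∧ w j ∈ (e m : Set X) := fun m => (e m).2.2.1
      choose j hj1 hj2 using h2
      obtain ⟨B, hB⟩ := IsOm.bdd (countable_range j)
      refine ⟨B, Or.inr ?_⟩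
      apply Set.infinite_of_injective_forall_mem (f := fun m => (e m : Set X))
      · intro a b hab
        exact e.injective (Subtype.ext hab)
      · intro m
        exact ⟨(e m).2.1, j m, hj1 m, hB _ ⟨m, rfl⟩, hj2 m⟩
  choose B hB using hb
  have h2 : ∀ γ : I, ∃ c, ∀ n, B n γ < c := by
    intro γ
    obtain ⟨c, hc⟩ := bdd (I := I) (A := range fun n => B n γ) (countable_range _)
    exact ⟨c, fun n => hc _ ⟨n, rfl⟩⟩
  choose G hG using h2
  obtain ⟨δ, hδY, hδ, hδ2⟩ := hY1 G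
  have hZ : w δ ∈ w '' Y := ⟨δ, hδY, rfl⟩
  obtain ⟨b, hb⟩ := ha δ hδY
  obtain ⟨n, s, hsF, hs1, hs2⟩ := S.net _ hZ (Iio (w b)) (h.io _) hb
  obtain ⟨V, hV, hVf⟩ := S.lf n _ hZ
  obtain ⟨γ, hγ, hγ2⟩ := hcont δ hδ V hV
  rcases hB n γ with h3 | h3
  · have h4 := h3 s hsF ⟨δ, hγ, hs1 (S.mem _ hZ)⟩ ⟨b, hs2⟩ (hs1 (S.mem _ hZ))
    have h5 : δ < B n γ := hw.lt_iff_lt.1 h4
    exact absurd (h5.trans ((hG γ n).trans (hδ2 γ hγ))) (lt_irrefl _)
  · apply h3
    apply hVf.subset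
    rintro s' ⟨hs'1, j, hj1, hj2, hj3⟩
    exact ⟨hs'1, w j, hj3, hγ2 j hj1 (hj2.trans ((hG γ n).trans (hδ2 γ hγ)))⟩

/-- Gap lemma -/
theorem CC.gap (h : IsGO X) (hs : HS X) {K : Set X} (hK : CC K) {B : Set X}
    (hne : B.Nonempty) (hmax : ∀ b ∈ B, ∃ b' ∈ B, b < b')
    (hp : ∀ p ∈ K, p ∉ B → p ∉ closure (K ∩ B)) : ∃ b ∈ B, ∀ k ∈ K, k ∈ B → k < b := by
  by_contra hno
  push Not at hno
  have h1 : ∀ k ∈ K ∩ B, ∃ k' ∈ K ∩ B, k < k' := by
    intro k hk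
    obtain ⟨b', hb', h2⟩ := hmax k hk.2
    obtain ⟨k', h3, h4, h5⟩ := hno b' hb'
    exact ⟨k', ⟨h3, h4⟩, h2.trans_le h5⟩
  by_cases hc : ∃ A ⊆ K ∩ B, A.Countable ∧ ∀ x ∈ K ∩ B, ∃ a ∈ A, x ≤ a
  · obtain ⟨A, hA, hAc, hcof⟩ := hc
    obtain ⟨b0, hb0⟩ := hne
    obtain ⟨k0, h3, h4, -⟩ := hno b0 hb0
    obtain ⟨a0, ha0, -⟩ := hcof k0 ⟨h3, h4⟩
    obtain ⟨p, hpK, hp1, hp2, hp3⟩ := hK.lubset h (fun a ha => (hA ha).1) hAc ⟨a0, ha0⟩ (by
      intro a ha
      obtain ⟨k', hk', h5⟩ := h1 a (hA ha)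
      obtain ⟨a', ha', h6⟩ := hcof k' hk'
      exact ⟨a', ha', h5.trans_le h6⟩)
    refine hp p hpK ?_ (closure_mono hA hp3)
    intro hpB
    obtain ⟨k, hk, hkB, hpk⟩ := hno p hpB
    obtain ⟨a, ha, hka⟩ := hcof k ⟨hk, hkB⟩
    exact absurd (hp1 a ha) (not_lt.2 (hpk.trans hka))
  · obtain ⟨f, hf, hf2⟩ := IsOm.exists_strictMono (I := Om) (K ∩ B) (by
      intro A hA hAc
      by_contra h3
      push Not at h3
      exact hc ⟨A, hA, hAc, h3⟩)
    exact hK.no_seq h hs f hf (fun i => (hf2 i).1)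

/-- dual gap lemma -/
theorem CC.gap' (h : IsGO X) (hs : HS X) {K : Set X} (hK : CC K) {B : Set X}
    (hne : B.Nonempty) (hmin : ∀ b ∈ B, ∃ b' ∈ B, b' < b)
    (hp : ∀ p ∈ K, p ∉ B → p ∉ closure (K ∩ B)) : ∃ b ∈ B, ∀ k ∈ K, k ∈ B → b < k :=
  CC.gap (X := Xᵒᵈ) h.dual hs.dual hK (B := B) hne hmin hp

/-- countably compact sets are compact -/
theorem CC.isCompact (h : IsGO X) (hs : HS X) {K : Set X} (hK : CC K) : IsCompact K := by
  rw [isCompact_iff_ultrafilter_le_nhds]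
  intro f hf
  rw [le_principal_iff] at hf
  -- principal case
  by_cases hpr : ∃ m, {m} ∈ f
  · obtain ⟨m, hm⟩ := hpr
    have hmK : m ∈ K := by
      obtain ⟨x, hx1, hx2⟩ := f.nonempty_of_mem (inter_mem hm hf)
      rw [mem_singleton_iff] at hx1
      rwa [hx1] at hx2
    refine ⟨m, hmK, ?_⟩
    intro U hU
    exact mem_of_superset hm (singleton_subset_iff.2 (mem_of_mem_nhds hU))
  push Not at hpr
  have hC : ∀ x, Ioi x ∉ f → Iio x ∈ f := by
    intro x hx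
    have h1 : Iic x ∈ f := by
      have := Ultrafilter.compl_mem_iff_notMem.2 hx
      rwa [compl_Ioi] at this
    have h2 : {x}ᶜ ∈ f := Ultrafilter.compl_mem_iff_notMem.2 (hpr x)
    apply mem_of_superset (inter_mem h1 h2)
    rintro y ⟨hy1, hy2⟩
    exact lt_of_le_of_ne hy1 hy2
  have hexcl : ∀ x, Ioi x ∈ f → Iio x ∈ f → False := by
    intro x h1 h2
    obtain ⟨y, hy1, hy2⟩ := f.nonempty_of_mem (inter_mem h1 h2)
    exact lt_asymm hy1 hy2
  by_cases hmx : ∃ m, Ioi m ∈ f ∧ ∀ x, Ioi x ∈ f → x ≤ m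
  · obtain ⟨m, hm, hmx⟩ := hmx
    by_cases hmc : m ∈ K ∧ m ∈ closure (K ∩ Ioi m)
    · refine ⟨m, hmc.1, ?_⟩
      intro U hU
      obtain ⟨V, hVU, hVo, hVc, hVm⟩ := h.bas _ _ hU
      obtain ⟨k, hk1, hk2, hk3⟩ := mem_closure_iff.1 hmc.2 V hVo hVm
      have h2 : Iio k ∈ f := hC k (fun h3 => absurd (hmx k h3) (not_le.2 hk3))
      apply mem_of_superset (inter_mem hm h2)
      rintro y ⟨hy1, hy2⟩
      exact hVU (hVc.out hVm hk1 ⟨le_of_lt hy1, le_of_lt hy2⟩)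
    · exfalso
      obtain ⟨b, hb, hb2⟩ := hK.gap' h hs (B := Ioi m) (f.nonempty_of_mem hm) (by
          intro b hb
          have h2 : Iio b ∈ f := hC b (fun h3 => absurd (hmx b h3) (not_le.2 hb))
          obtain ⟨y, hy1, hy2⟩ := f.nonempty_of_mem (inter_mem hm h2)
          exact ⟨y, hy1, hy2⟩)
        (by
          intro p hp hpm hpc
          rcases eq_or_lt_of_le (not_lt.1 hpm) with h4 | h4
          · subst h4
            exact hmc ⟨hp, hpc⟩
          · obtain ⟨y, hy1, hy2⟩ := mem_closure_iff.1 hpc (Iio m) (h.io m) h4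
            exact lt_asymm hy1 hy2.2)
      have h2 : Iio b ∈ f := hC b (fun h3 => absurd (hmx b h3) (not_le.2 hb))
      obtain ⟨y, ⟨hy1, hy2⟩, hy3⟩ := f.nonempty_of_mem (inter_mem (inter_mem hf hm) h2)
      exact lt_asymm (hb2 y hy1 hy2) hy3
  · push Not at hmx
    by_cases hH : ∃ p ∈ K, Ioi p ∉ f ∧ p ∈ closure (K ∩ {x | Ioi x ∈ f})
    · obtain ⟨p, hpK, hpB, hpc⟩ := hH
      refine ⟨p, hpK, ?_⟩
      intro U hU
      obtain ⟨V, hVU, hVo, hVc, hVm⟩ := h.bas _ _ hU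
      obtain ⟨k, hk1, hk2, hk3⟩ := mem_closure_iff.1 hpc V hVo hVm
      apply mem_of_superset (inter_mem (hC p hpB) hk3)
      rintro y ⟨hy1, hy2⟩
      exact hVU (hVc.out hk1 hVm ⟨le_of_lt hy2, le_of_lt hy1⟩)
    · exfalso
      push Not at hH
      have hKC : K ∩ {x | Iio x ∈ f} ∈ f := by
        by_cases hBn : ∃ x, Ioi x ∈ f
        · obtain ⟨b, hb, hb2⟩ := hK.gap h hs (B := {x | Ioi x ∈ f}) hBn hmx (fun p hp hpB => hH p hp hpB)
          apply mem_of_superset (inter_mem hf hb)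
          rintro y ⟨hy1, hy2⟩
          refine ⟨hy1, hC y ?_⟩
          intro h3
          exact lt_asymm (hb2 y hy1 h3) hy2
        · push Not at hBn
          apply mem_of_superset hf
          intro y hy
          exact ⟨hy, hC y (hBn y)⟩
      obtain ⟨b, hb, hb2⟩ := hK.gap' h hs (B := {x | Iio x ∈ f})
        (by obtain ⟨y, hy⟩ := f.nonempty_of_mem hKC; exact ⟨y, hy.2⟩)
        (by
          intro c hc
          obtain ⟨y, hy1, hy2⟩ := f.nonempty_of_mem (inter_mem hKC hc)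
          exact ⟨y, hy1.2, hy2⟩)
        (by
          intro p hp hpC hpc
          have h3 : Ioi p ∈ f := by
            by_contra h4
            exact hpC (hC p h4)
          obtain ⟨x, hx, hx2⟩ := hmx p h3
          obtain ⟨y, hy1, hy2⟩ := mem_closure_iff.1 hpc (Iio x) (h.io x) hx2
          have h5 : Ioi y ∈ f := mem_of_superset hx (Ioi_subset_Ioi (le_of_lt hy1))
          exact hexcl y h5 hy2.2)
      obtain ⟨y, ⟨hy1, hy2⟩, hy3⟩ := f.nonempty_of_mem (inter_mem hKC hb)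
      exact lt_asymm (hb2 y hy1 hy2) hy3

end lemmas

end Pool.Agent.H893R2
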