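import Pool.Agent.H893R2.GO1

set_option autoImplicit false
set_option linter.unusedSectionVars false
open Set Topology Filter

namespace Pool.Agent.H893R2

variable {X : Type*} [LinearOrder X] [TopologicalSpace X]

open IsOm in
/-- Lemma 2: an `ω₁`-sequence has no limit above it -/
theorem no_seq_closure {I : Type*} [LinearOrder I] [IsOm I] (h : IsGO X) (hs : HS X)
    (f : I → X) (hf : StrictMono f) (p : X) (hp : ∀ i, f i ≤ p) (hpc : p ∈ closure (range f)) :
    False := by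
  classical
  let z : I → X := fun i => f (sc i)
  have hfz : ∀ i, f i < z i := fun i => hf (lt_sc i)
  have hfp : ∀ i, f i < p := fun i => (hfz i).trans_le (hp _)
  have hz : StrictMono z := by
    intro i j hij
    exact hf ((sc_le hij).trans_lt (lt_sc j))
  let N : I → Set X := fun j => Ioo (f j) (f (sc (sc j)))
  have hN : ∀ j l, z l ∈ N j → l = j := by
    intro j l hl
    have h1 : j < sc l := hf.lt_iff_lt.1 hl.1
    have h2 : sc l < sc (sc j) := hf.lt_iff_lt.1 hl.2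
    have h3 : j ≤ l := le_of_lt_sc h1
    have h4 : l ≤ j := le_of_lt_sc ((lt_sc l).trans_le (le_of_lt_sc h2))
    exact le_antisymm h4 h3
  have hNm : ∀ j, z j ∈ N j := fun j => ⟨hf (lt_sc j), hf (lt_sc _)⟩
  have hNo : ∀ j, IsOpen (N j) := fun j => (h.oi _).inter (h.io _)
  obtain ⟨F, κ, S⟩ := hs (insert p (range z))
  have hzZ : ∀ i, z i ∈ insert p (range z) := fun i => mem_insert_of_mem _ ⟨i, rfl⟩
  have key : ∀ i, ∃ n, ∃ s ∈ F n, z i ∈ s ∧ {l | l ≤ i ∧ z l ∈ s}.Finite := by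
    intro i
    have hcomp : IsCompact (κ (z i) ∩ Iic (z i)) :=
      ((S.cc _ (hzZ i)).isCompact h hs).inter_right (h.cIic _)
    obtain ⟨t, ht⟩ := hcomp.elim_finite_subcover N hNo (by
      rintro x ⟨hx1, hx2⟩
      rcases S.ksub _ (hzZ i) hx1 with h1 | ⟨j, rfl⟩
      · exfalso
        rw [h1] at hx2
        exact absurd (hfp (sc i)) (not_lt.2 hx2)
      · exact mem_iUnion.2 ⟨j, hNm j⟩)
    obtain ⟨n, s, hsF, hs1, hs2⟩ := S.net _ (hzZ i) ((⋃ j ∈ t, N j) ∪ Ioi (z i))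
      ((isOpen_biUnion (fun j _ => hNo j)).union (h.oi _)) (by
        intro x hx
        rcases le_or_gt x (z i) with h1 | h1
        · exact Or.inl (ht ⟨hx, h1⟩)
        · exact Or.inr h1)
    refine ⟨n, s, hsF, hs1 (S.mem _ (hzZ i)), ?_⟩
    apply t.finite_toSet.subset
    rintro l ⟨hl1, hl2⟩
    rcases hs2 hl2 with h1 | h1
    · simp only [mem_iUnion] at h1
      obtain ⟨j, hj, h2⟩ := h1
      rw [hN j l h2]
      exact hj
    · exact absurd (hz.monotone hl1) (not_le.2 h1)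
  choose n s hsF hzs hfin using key
  have hV : ∀ m, ∃ V ∈ 𝓝 p, {s ∈ F m | (s ∩ V).Nonempty}.Finite := fun m => S.lf m p (mem_insert _ _)
  choose V hV1 hV2 using hV
  have hγ : ∀ m, ∃ γ, ∀ i, γ ≤ i → z i ∈ V m := by
    intro m
    obtain ⟨W, hWV, hWo, hWc, hWm⟩ := h.bas _ _ (hV1 m)
    obtain ⟨_, h2, ⟨γ, rfl⟩⟩ := mem_closure_iff.1 hpc W hWo hWm
    refine ⟨γ, fun i hi => hWV (hWc.out h2 hWm ⟨?_, (hfp _).le⟩)⟩
    exact ((hf.monotone hi).trans_lt (hfz i)).le
  choose γ hγ using hγ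
  obtain ⟨g, hg⟩ := IsOm.bdd (countable_range γ)
  have hT : (⋃ m, {s ∈ F m | (s ∩ V m).Nonempty}).Countable :=
    countable_iUnion (fun m => (hV2 m).countable)
  have hB : ∀ s : Set X, {i | z i ∈ s ∧ {l | l ≤ i ∧ z l ∈ s}.Finite}.Countable := by
    intro s
    apply Set.countable_of_injective_of_countable_image (f := fun i => ({l | l ≤ i ∧ z l ∈ s}).ncard)
    · have : ∀ i j, i < j → {l | l ≤ j ∧ z l ∈ s}.Finite → z j ∈ s →
        ({l | l ≤ i ∧ z l ∈ s}).ncard < ({l | l ≤ j ∧ z l ∈ s}).ncard := by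
        intro i j hij h1 h2
        apply Set.ncard_lt_ncard _ h1
        rw [Set.ssubset_iff_of_subset]
        · exact ⟨j, ⟨le_rfl, h2⟩, fun h3 => absurd h3.1 (not_le.2 hij)⟩
        · rintro l ⟨hl1, hl2⟩
          exact ⟨hl1.trans hij.le, hl2⟩
      rintro i ⟨hi1, hi2⟩ j ⟨hj1, hj2⟩ hij
      rcases lt_trichotomy i j with h1 | h1 | h1
      · exact absurd hij (this i j h1 hj2 hj1).ne
      · exact h1
      · exact absurd hij (this j i h1 hi2 hi1).ne'
    · exact Set.to_countable _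
  have hcount : (Ici g).Countable := by
    apply (hT.biUnion (fun s _ => hB s)).mono
    intro i hi
    simp only [mem_iUnion]
    refine ⟨s i, ?_, hzs i, hfin i⟩
    refine ⟨n i, hsF i, z i, hzs i, hγ _ i ?_⟩
    exact (hg _ ⟨n i, rfl⟩).le.trans hi
  apply IsOm.unc (I := I)
  apply ((IsOm.cb g).union hcount).mono
  intro x _
  rcases lt_or_ge x g with h1 | h1
  · exact Or.inl h1
  · exact Or.inr h1

/-- closure of the lower closure -/
theorem IsGO.closure_lower (h : IsGO X) {G : Set X} {p : X} (hp : p ∈ closure {x | ∃ g ∈ G, x ≤ g})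
    (hp2 : ∀ g ∈ G, g < p) : p ∈ closure G := by
  rw [mem_closure_iff_nhds]
  intro U hU
  obtain ⟨V, hVU, hVo, hVc, hVm⟩ := h.bas _ _ hU
  obtain ⟨x, hx1, g, hg, hxg⟩ := mem_closure_iff.1 hp V hVo hVm
  exact ⟨g, hVU (hVc.out hx1 hVm ⟨hxg, (hp2 g hg).le⟩), hg⟩

theorem IsGO.closed_lower (h : IsGO X) {G : Set X} (hG : IsClosed G) :
    IsClosed {x | ∃ g ∈ G, x ≤ g} := by
  rw [← closure_subset_iff_isClosed]
  intro p hp
  by_contra hno
  have h1 : ∀ g ∈ G, g < p := by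
    intro g hg
    by_contra h2
    exact hno ⟨g, hg, not_lt.1 h2⟩
  have h3 : p ∈ G := by
    rw [← hG.closure_eq]
    exact h.closure_lower hp h1
  exact absurd (h1 p h3) (lt_irrefl p)

/-- locally finite sets -/
def LFs (B : Set X) : Prop := ∀ x, ∃ V ∈ 𝓝 x, (B ∩ V).Finite

/-- Lemma 5 -/
theorem exists_LF_cofinal (h : IsGO X) (hs : HS X) {G : Set X} (hG : IsClosed G) :
    ∃ B ⊆ G, LFs B ∧ ∀ g ∈ G, ∃ b ∈ B, g ≤ b := by
  classical
  have hL := h.closed_lower hG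
  by_cases hc : ∃ A ⊆ G, A.Countable ∧ ∀ x ∈ G, ∃ a ∈ A, x ≤ a
  · obtain ⟨A, hA, hAc, hcof⟩ := hc
    by_cases hmax : ∃ m ∈ G, ∀ g ∈ G, g ≤ m
    · obtain ⟨m, hm, hm2⟩ := hmax
      exact ⟨{m}, singleton_subset_iff.2 hm, fun x => ⟨univ, univ_mem, (finite_singleton m).inter_of_left _⟩,
        fun g hg => ⟨m, rfl, hm2 g hg⟩⟩
    push Not at hmax
    rcases A.eq_empty_or_nonempty with hAe | hAne
    · refine ⟨∅, empty_subset _, fun x => ⟨univ, univ_mem, by simp⟩, ?_⟩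
      intro g hg
      obtain ⟨a, ha, -⟩ := hcof g hg
      rw [hAe] at ha
      exact absurd ha (notMem_empty _)
    obtain ⟨s, hs1, hs2, hs3⟩ := exists_seq hAc hAne (by
      intro a ha
      obtain ⟨g, hg, hag⟩ := hmax a (hA ha)
      obtain ⟨a', ha', h2⟩ := hcof g hg
      exact ⟨a', ha', hag.trans_le h2⟩)
    refine ⟨range s, by rintro _ ⟨n, rfl⟩; exact hA (hs2 n), ?_, ?_⟩
    · intro x
      by_cases hx : x ∈ {x | ∃ g ∈ G, x ≤ g}
      · obtain ⟨g, hg, hxg⟩ := hx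
        obtain ⟨a, ha, hga⟩ := hcof g hg
        obtain ⟨n, hn⟩ := hs3 a ha
        refine ⟨Iio (s n), (h.io _).mem_nhds (hxg.trans_lt (hga.trans_lt hn)), ?_⟩
        apply ((finite_Iio n).image s).subset
        rintro _ ⟨⟨m, rfl⟩, hm⟩
        exact ⟨m, hs1.lt_iff_lt.1 hm, rfl⟩
      · refine ⟨_, hL.isOpen_compl.mem_nhds hx, ?_⟩
        convert finite_empty (α := X)
        ext y
        simp only [mem_inter_iff, mem_range, mem_compl_iff, mem_empty_iff_false, iff_false, not_and,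
          not_not]
        rintro ⟨n, rfl⟩
        exact ⟨_, hA (hs2 n), le_rfl⟩
    · intro g hg
      obtain ⟨a, ha, hga⟩ := hcof g hg
      obtain ⟨n, hn⟩ := hs3 a ha
      exact ⟨s n, ⟨n, rfl⟩, hga.trans hn.le⟩
  · have hunc : ∀ A ⊆ G, A.Countable → ∃ g ∈ G, ∀ a ∈ A, a < g := by
      intro A hA hAc
      by_contra h2
      push Not at h2
      exact hc ⟨A, hA, hAc, h2⟩
    have hunc2 : ∀ (a : ℕ → X), ∃ g ∈ G, ∀ n, a n ∈ G → a n < g := by
      intro a
      obtain ⟨g, hg, hg2⟩ := hunc (range a ∩ G) inter_subset_right ((countable_range a).mono inter_subset_left)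
      exact ⟨g, hg, fun n hn => hg2 _ ⟨⟨n, rfl⟩, hn⟩⟩
    obtain ⟨g0, hg0, -⟩ := hunc2 (fun _ => (hunc ∅ (empty_subset _) countable_empty).choose)
    obtain ⟨F, κ, S⟩ := hs univ
    have key : ∀ y : X, ∃ n, ∃ s, ∃ b, y ∈ G → (s ∈ F n ∧ b ∈ G ∧ y ∈ s ∧
        ∀ x ∈ s, x ∈ {x | ∃ g ∈ G, x ≤ g} → x < b) := by
      intro y
      by_cases hy : y ∈ G
      · obtain ⟨b, ⟨g, hg, hbg⟩, hb2⟩ := (S.cc y (mem_univ _)).gap h hs (B := {x | ∃ g ∈ G, x ≤ g})
          ⟨y, y, hy, le_rfl⟩ (by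
            rintro x ⟨g, hg, hxg⟩
            obtain ⟨g', hg', h2⟩ := hunc2 (fun _ => g)
            exact ⟨g', ⟨g', hg', le_rfl⟩, hxg.trans_lt (h2 0 hg)⟩) (by
            intro p hp hpL hpc
            apply hpL
            rw [← hL.closure_eq]
            exact closure_mono inter_subset_right hpc)
        obtain ⟨n, s, hsF, hs1, hs2⟩ := S.net y (mem_univ _) (Iio g ∪ {x | ∃ g ∈ G, x ≤ g}ᶜ)
          ((h.io g).union hL.isOpen_compl) (by
            intro k hk
            by_cases hkL : k ∈ {x | ∃ g ∈ G, x ≤ g}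
            · exact Or.inl ((hb2 k hk hkL).trans_le hbg)
            · exact Or.inr hkL)
        refine ⟨n, s, g, fun _ => ⟨hsF, hg, hs1 (S.mem y (mem_univ _)), ?_⟩⟩
        intro x hx hxL
        rcases hs2 hx with h2 | h2
        · exact h2
        · exact absurd hxL h2
      · exact ⟨0, ∅, y, fun h => absurd h hy⟩
    choose n s b hnsb using key
    have hGn : ∃ m, ∀ g ∈ G, ∃ y ∈ G, n y = m ∧ g ≤ y := by
      by_contra hno
      push Not at hno
      choose a ha1 ha2 using hno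
      obtain ⟨g, hg, hg2⟩ := hunc2 a
      exact absurd (ha2 (n g) g hg rfl) (not_lt.2 (hg2 _ (ha1 _)).le)
    obtain ⟨m, hm⟩ := hGn
    obtain ⟨B, hB⟩ := zorn_subset {B : Set X | B ⊆ G ∧ (∀ y ∈ B, n y = m) ∧
      ∀ y ∈ B, ∀ y' ∈ B, y < y' → b y ≤ y'} (by
        intro c hc hchain
        refine ⟨⋃₀ c, ⟨?_, ?_, ?_⟩, fun s hs => subset_sUnion_of_mem hs⟩
        · rintro y ⟨C, hC, hy⟩
          exact (hc hC).1 hy
        · rintro y ⟨C, hC, hy⟩
          exact (hc hC).2.1 y hy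
        · rintro y ⟨C, hC, hy⟩ y' ⟨C', hC', hy'⟩
          rcases hchain.total hC hC' with h2 | h2
          · exact (hc hC').2.2 y (h2 hy) y' hy'
          · exact (hc hC).2.2 y hy y' (h2 hy'))
    obtain ⟨⟨hB1, hB2, hB3⟩, hBmax⟩ := hB
    have hmain : ∀ g ∈ G, (∀ y ∈ B, b y ≤ g) → False := by
      intro g hg hbg
      obtain ⟨y, hyG, hyn, hgy⟩ := hm g hg
      have hlt : ∀ y' ∈ B, y' < y := by
        intro y' hy'
        have h2 := hnsb y' (hB1 hy')
        exact (h2.2.2.2 y' h2.2.2.1 ⟨y', hB1 hy', le_rfl⟩).trans_le ((hbg y' hy').trans hgy)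
      have h3 : insert y B ⊆ B := by
        apply hBmax _ (subset_insert _ _)
        refine ⟨insert_subset hyG hB1, ?_, ?_⟩
        · rintro y' (rfl | hy')
          · exact hyn
          · exact hB2 y' hy'
        · rintro y1 (rfl | hy1) y2 (rfl | hy2) h4
          · exact absurd h4 (lt_irrefl _)
          · exact absurd (hlt y2 hy2) (not_lt.2 h4.le)
          · exact (hbg y1 hy1).trans hgy
          · exact hB3 y1 hy1 y2 hy2 h4
      exact absurd (hlt y (h3 (mem_insert _ _))) (lt_irrefl _)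
    refine ⟨B, hB1, ?_, ?_⟩
    · intro x
      obtain ⟨V, hV, hVf⟩ := S.lf m x (mem_univ _)
      refine ⟨V, hV, ?_⟩
      apply Set.Finite.of_injOn (f := s) (t := {s ∈ F m | (s ∩ V).Nonempty}) _ _ hVf
      · rintro y ⟨hy1, hy2⟩
        have h2 := hnsb y (hB1 hy1)
        rw [hB2 y hy1] at h2
        exact ⟨h2.1, y, h2.2.2.1, hy2⟩
      · have h4 : ∀ y ∈ B, ∀ y' ∈ B, y < y' → s y ≠ s y' := by
          intro y hy y' hy' hlt heq
          have h2 := hnsb y (hB1 hy)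
          have h3 := hnsb y' (hB1 hy')
          have h5 := h2.2.2.2 y' (by rw [heq]; exact h3.2.2.1) ⟨y', hB1 hy', le_rfl⟩
          exact absurd h5 (not_lt.2 (hB3 y hy y' hy' hlt))
        rintro y ⟨hy1, hy2⟩ y' ⟨hy1', hy2'⟩ heq
        rcases lt_trichotomy y y' with h2 | h2 | h2
        · exact absurd heq (h4 y hy1 y' hy1' h2)
        · exact h2
        · exact absurd heq.symm (h4 y' hy1' y hy1 h2)
    · by_contra hno
      push Not at hno
      obtain ⟨g, hg, hg2⟩ := hno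
      by_cases hmx : ∃ y0 ∈ B, ∀ y ∈ B, y ≤ y0
      · obtain ⟨y0, hy0, hy02⟩ := hmx
        apply hmain (b y0) (hnsb y0 (hB1 hy0)).2.1
        intro y hy
        rcases eq_or_lt_of_le (hy02 y hy) with h2 | h2
        · rw [h2]
        · have h3 := hnsb y0 (hB1 hy0)
          exact (hB3 y hy y0 hy0 h2).trans (h3.2.2.2 y0 h3.2.2.1 ⟨y0, hB1 hy0, le_rfl⟩).le
      · push Not at hmx
        apply hmain g hg
        intro y hy
        obtain ⟨y', hy', h2⟩ := hmx y hy
        exact (hB3 y hy y' hy' h2).trans (hg2 y' hy').le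

end Pool.Agent.H893R2
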