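import Pool.Agent.H893R2.GO2

set_option autoImplicit false
set_option linter.unusedSectionVars false
open Set Topology Filter

namespace Pool.Agent.H893R2

variable {X : Type*} [LinearOrder X] [TopologicalSpace X]

/-- Lemma 6 -/
theorem exists_D1 (h : IsGO X) (hs : HS X) {F : Set (Set X)}
    (hlf : ∀ z, ∃ V ∈ 𝓝 z, {s ∈ F | (s ∩ V).Nonempty}.Finite) :
    ∃ D, LFs D ∧ ∀ x, ∃ a ∈ D, x ≤ a ∧ {s ∈ F | (s ∩ Icc x a).Nonempty}.Countable := by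
  classical
  let cl : X → Set X := fun x => {y | {s ∈ F | (s ∩ uIcc x y).Nonempty}.Countable}
  have hrefl : ∀ x, x ∈ cl x := by
    intro x
    obtain ⟨V, hV, hVf⟩ := hlf x
    apply (hVf.subset _).countable
    rintro s ⟨hs, y, hy1, hy2⟩
    rw [uIcc_self, mem_singleton_iff] at hy2
    exact ⟨hs, y, hy1, by rw [hy2]; exact mem_of_mem_nhds hV⟩
  have hsymm : ∀ x y, y ∈ cl x → x ∈ cl y := by
    intro x y hxy
    change {s ∈ F | (s ∩ uIcc y x).Nonempty}.Countable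
    rw [uIcc_comm]
    exact hxy
  have htrans : ∀ x y z, y ∈ cl x → z ∈ cl y → z ∈ cl x := by
    intro x y z hxy hyz
    apply (Set.Countable.union hxy hyz).mono
    rintro s ⟨hs, w, hw1, hw2⟩
    rcases uIcc_subset_uIcc_union_uIcc (b := y) hw2 with h1 | h1
    · exact Or.inl ⟨hs, w, hw1, h1⟩
    · exact Or.inr ⟨hs, w, hw1, h1⟩
  have hopen' : ∀ x, cl x ∈ 𝓝 x := by
    intro x
    obtain ⟨V, hV, hVf⟩ := hlf x
    obtain ⟨W, hWV, hWo, hWc, hWm⟩ := h.bas _ _ hV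
    apply mem_of_superset (hWo.mem_nhds hWm)
    intro y hy
    apply (hVf.subset _).countable
    rintro s ⟨hs, w, hw1, hw2⟩
    exact ⟨hs, w, hw1, hWV (hWc.uIcc_subset hWm hy hw2)⟩
  have heq : ∀ x y, y ∈ cl x → cl y = cl x := by
    intro x y hxy
    ext z
    exact ⟨fun hz => htrans _ _ _ hxy hz, fun hz => htrans _ _ _ (hsymm _ _ hxy) hz⟩
  have hclosed : ∀ x, IsClosed (cl x) := by
    intro x
    rw [← isOpen_compl_iff, isOpen_iff_mem_nhds]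
    intro y hy
    apply mem_of_superset (hopen' y)
    intro z hz hzx
    exact hy (htrans _ _ _ hzx (hsymm _ _ hz))
  have hB : ∀ G : Set X, ∃ B : Set X, IsClosed G → (B ⊆ G ∧ LFs B ∧ ∀ g ∈ G, ∃ b ∈ B, g ≤ b) := by
    intro G
    by_cases hG : IsClosed G
    · obtain ⟨B, h1, h2, h3⟩ := exists_LF_cofinal h hs hG
      exact ⟨B, fun _ => ⟨h1, h2, h3⟩⟩
    · exact ⟨∅, fun h => absurd h hG⟩
  choose B hB using hB
  refine ⟨{a | a ∈ B (cl a)}, ?_, ?_⟩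
  · intro x
    obtain ⟨hB1, hB2, hB3⟩ := hB (cl x) (hclosed x)
    obtain ⟨V, hV, hVf⟩ := hB2 x
    refine ⟨V ∩ cl x, inter_mem hV (hopen' x), hVf.subset ?_⟩
    rintro y ⟨hy1, hy2, hy3⟩
    refine ⟨?_, hy2⟩
    rw [← heq x y hy3]
    exact hy1
  · intro x
    obtain ⟨hB1, hB2, hB3⟩ := hB (cl x) (hclosed x)
    obtain ⟨a, ha, hxa⟩ := hB3 x (hrefl x)
    have h1 : a ∈ cl x := hB1 ha
    refine ⟨a, ?_, hxa, ?_⟩
    · change a ∈ B (cl a)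
      rw [heq x a h1]
      exact ha
    · have h2 : {s ∈ F | (s ∩ uIcc x a).Nonempty}.Countable := h1
      rwa [uIcc_of_le hxa] at h2

theorem exists_D1' (h : IsGO X) (hs : HS X) {F : Set (Set X)}
    (hlf : ∀ z, ∃ V ∈ 𝓝 z, {s ∈ F | (s ∩ V).Nonempty}.Finite) :
    ∃ D, LFs D ∧ ∀ x, ∃ a ∈ D, a ≤ x ∧ {s ∈ F | (s ∩ Icc a x).Nonempty}.Countable := by
  obtain ⟨D, hD, hD2⟩ := exists_D1 (X := Xᵒᵈ) h.dual hs.dual hlf
  refine ⟨D, hD, fun x => ?_⟩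
  obtain ⟨a, ha, hxa, hc⟩ := hD2 x
  refine ⟨a, ha, hxa, hc.mono ?_⟩
  rintro s ⟨hs, y, hy1, hy2, hy3⟩
  exact ⟨hs, y, hy1, hy3, hy2⟩

/-- closed sets meeting only countably many members of each level are Lindelöf -/
theorem Sig.lindelof (h : IsGO X) (hs : HS X) {F : ℕ → Set (Set X)} {κ : X → Set X}
    (S : Sig univ F κ) {J : Set X} (hJ : IsClosed J)
    (hc : ∀ n, {s ∈ F n | (s ∩ J).Nonempty}.Countable) : IsLindelof J := by
  classical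
  apply isLindelof_of_countable_subcover
  intro ι U hU hJU
  have h1 : ∀ x ∈ J, ∃ n, ∃ s ∈ F n, x ∈ s ∧ ∃ t : Finset ι, s ∩ J ⊆ ⋃ i ∈ t, U i := by
    intro x hx
    have hcomp : IsCompact (κ x ∩ J) := ((S.cc x (mem_univ _)).isCompact h hs).inter_right hJ
    obtain ⟨t, ht⟩ := hcomp.elim_finite_subcover U hU (fun y hy => hJU hy.2)
    obtain ⟨n, s, hsF, hs1, hs2⟩ := S.net x (mem_univ _) ((⋃ i ∈ t, U i) ∪ Jᶜ)
      ((isOpen_biUnion (fun i _ => hU i)).union hJ.isOpen_compl) (by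
        intro y hy
        by_cases hyJ : y ∈ J
        · exact Or.inl (ht ⟨hy, hyJ⟩)
        · exact Or.inr hyJ)
    refine ⟨n, s, hsF, hs1 (S.mem x (mem_univ _)), t, ?_⟩
    rintro y ⟨hy1, hy2⟩
    rcases hs2 hy1 with h2 | h2
    · exact h2
    · exact absurd hy2 h2
  have h2 : ∀ s : Set X, ∃ t : Finset ι, (∃ t : Finset ι, s ∩ J ⊆ ⋃ i ∈ t, U i) →
      s ∩ J ⊆ ⋃ i ∈ t, U i := by
    intro s
    by_cases h3 : ∃ t : Finset ι, s ∩ J ⊆ ⋃ i ∈ t, U i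
    · obtain ⟨t, ht⟩ := h3
      exact ⟨t, fun _ => ht⟩
    · exact ⟨∅, fun h4 => absurd h4 h3⟩
  choose t ht using h2
  refine ⟨⋃ n, ⋃ s ∈ {s ∈ F n | (s ∩ J).Nonempty}, (t s : Set ι), ?_, ?_⟩
  · exact countable_iUnion (fun n => (hc n).biUnion (fun s _ => (t s).countable_toSet))
  · intro x hx
    obtain ⟨n, s, hsF, hxs, h3⟩ := h1 x hx
    have h4 := ht s h3 ⟨hxs, hx⟩
    simp only [mem_iUnion] at h4 ⊢
    obtain ⟨i, hi, hxi⟩ := h4
    exact ⟨i, ⟨n, s, ⟨hsF, x, hxs, hx⟩, hi⟩, hxi⟩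

/-- locally countable families on a Lindelöf set -/
theorem lind_countable {ι : Type*} (C : ι → Set X) (S : Set ι) {J : Set X} (hJ : IsLindelof J)
    (hV : ∀ z ∈ J, ∃ V ∈ 𝓝 z, {i ∈ S | (C i ∩ V).Nonempty}.Countable) :
    {i ∈ S | (C i ∩ J).Nonempty}.Countable := by
  classical
  choose! V hV1 hV2 using hV
  obtain ⟨t, htc, hts, hcov⟩ := hJ.elim_nhds_subcover V hV1
  apply (htc.biUnion (fun z hz => hV2 z (hts z hz))).mono
  rintro i ⟨hi, x, hx1, hx2⟩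
  have := hcov hx2
  simp only [mem_iUnion] at this ⊢
  obtain ⟨z, hz, hxz⟩ := this
  exact ⟨z, hz, hi, x, hx1, hxz⟩

/-- (L2): no `ω₁`-sequences in a Lindelöf space -/
theorem no_seq_lind {I : Type*} [LinearOrder I] [IsOm I] (h : IsGO X) (hs : HS X)
    (hL : IsLindelof (univ : Set X)) (f : I → X) (hf : StrictMono f) : False := by
  have hcl : IsClosed {x | ∃ g ∈ range f, x ≤ g} := by
    rw [← closure_subset_iff_isClosed]
    intro p hp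
    by_contra hno
    have h1 : ∀ g ∈ range f, g < p := by
      intro g hg
      by_contra h2
      exact hno ⟨g, hg, not_lt.1 h2⟩
    exact no_seq_closure h hs f hf p (fun i => (h1 _ ⟨i, rfl⟩).le) (h.closure_lower hp h1)
  have hL2 := hL.of_isClosed_subset hcl (subset_univ _)
  obtain ⟨t, htc, ht⟩ := hL2.elim_countable_subcover (fun i : I => Iio (f i)) (fun i => h.io _) (by
    rintro x ⟨_, ⟨i, rfl⟩, hx⟩
    exact mem_iUnion.2 ⟨IsOm.sc i, hx.trans_lt (hf (IsOm.lt_sc i))⟩)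
  obtain ⟨b, hb⟩ := IsOm.bdd htc
  have := ht (show f b ∈ {x | ∃ g ∈ range f, x ≤ g} from ⟨f b, ⟨b, rfl⟩, le_rfl⟩)
  simp only [mem_iUnion] at this
  obtain ⟨i, hi, h1⟩ := this
  exact absurd (hf.lt_iff_lt.1 h1) (not_lt.2 (hb i hi).le)

theorem no_seq_lind' {I : Type*} [LinearOrder I] [IsOm I] (h : IsGO X) (hs : HS X)
    (hL : IsLindelof (univ : Set X)) (f : I → X) (hf : StrictAnti f) : False :=
  no_seq_lind (X := Xᵒᵈ) h.dual hs.dual hL (fun i => OrderDual.toDual (f i)) (fun _ _ hij => hf hij)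

theorem exists_cof_lind (h : IsGO X) (hs : HS X) (hL : IsLindelof (univ : Set X)) (P : Set X) :
    ∃ A ⊆ P, A.Countable ∧ ∀ x ∈ P, ∃ a ∈ A, x ≤ a := by
  by_contra hc
  obtain ⟨f, hf, hf2⟩ := IsOm.exists_strictMono (I := Om) P (by
    intro A hA hAc
    by_contra h3
    push Not at h3
    exact hc ⟨A, hA, hAc, h3⟩)
  exact no_seq_lind h hs hL f hf

theorem exists_coi_lind (h : IsGO X) (hs : HS X) (hL : IsLindelof (univ : Set X)) (P : Set X) :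
    ∃ A ⊆ P, A.Countable ∧ ∀ x ∈ P, ∃ a ∈ A, a ≤ x :=
  exists_cof_lind (X := Xᵒᵈ) h.dual hs.dual hL P

/-! ### Patterns -/

/-- Lemma P -/
theorem patternP {ι : Type*} (x d : ι → X) (s : ι → Set X) (S : Set ι) (F : Set (Set X))
    (Dm V : Set X) (hinj : ∀ i j, x i = x j → i = j)
    (hsF : ∀ i ∈ S, s i ∈ F) (hxs : ∀ i ∈ S, x i ∈ s i) (hd : ∀ i ∈ S, d i ∈ Dm)
    (hxd : ∀ i ∈ S, x i < d i) (hgap : ∀ i ∈ S, ∀ y ∈ s i, x i < y → d i ≤ y)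
    (hVc : V.OrdConnected) (hVF : {s ∈ F | (s ∩ V).Nonempty}.Finite) (hVD : (Dm ∩ V).Finite) :
    {i ∈ S | x i ∈ V}.Finite := by
  classical
  have h1 : {i ∈ S | x i ∈ V} ⊆ ⋃ t ∈ {s ∈ F | (s ∩ V).Nonempty}, {i ∈ S | x i ∈ V ∧ s i = t} := by
    rintro i ⟨hi, hiV⟩
    simp only [mem_iUnion]
    exact ⟨s i, ⟨hsF i hi, x i, hxs i hi, hiV⟩, hi, hiV, rfl⟩
  apply (hVF.biUnion _).subset h1
  intro t _
  have hlt : ∀ i j, i ∈ S → j ∈ S → s i = t → s j = t → x i < x j → d i ≤ x j := by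
    intro i j hi hj hit hjt hij
    exact hgap i hi _ (by rw [hit, ← hjt]; exact hxs j hj) hij
  have h2 : {i ∈ S | x i ∈ V ∧ s i = t} ⊆ {i ∈ S | x i ∈ V ∧ s i = t ∧ d i ∈ V} ∪
      {i ∈ S | x i ∈ V ∧ s i = t ∧ d i ∉ V} := by
    rintro i ⟨hi, hi2, hi3⟩
    by_cases h3 : d i ∈ V
    · exact Or.inl ⟨hi, hi2, hi3, h3⟩
    · exact Or.inr ⟨hi, hi2, hi3, h3⟩
  apply Set.Finite.subset _ h2
  apply Set.Finite.union
  · apply Set.Finite.of_injOn (f := d) (t := Dm ∩ V) _ _ hVD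
    · rintro i ⟨hi, hi2, hi3, hi4⟩
      exact ⟨hd i hi, hi4⟩
    · rintro i ⟨hi, hi2, hi3, hi4⟩ j ⟨hj, hj2, hj3, hj4⟩ hij
      rcases lt_trichotomy (x i) (x j) with h3 | h3 | h3
      · have h4 := hlt i j hi hj hi3 hj3 h3
        exact absurd hij (h4.trans_lt (hxd j hj)).ne
      · exact hinj i j h3
      · have h4 := hlt j i hj hi hj3 hi3 h3
        exact absurd hij (h4.trans_lt (hxd i hi)).ne'
  · apply Set.Subsingleton.finite
    rintro i ⟨hi, hi2, hi3, hi4⟩ j ⟨hj, hj2, hj3, hj4⟩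
    rcases lt_trichotomy (x i) (x j) with h3 | h3 | h3
    · exact absurd (hVc.out hi2 hj2 ⟨(hxd i hi).le, hlt i j hi hj hi3 hj3 h3⟩) hi4
    · exact hinj i j h3
    · exact absurd (hVc.out hj2 hi2 ⟨(hxd j hj).le, hlt j i hj hi hj3 hi3 h3⟩) hj4

/-- Lemma Q -/
theorem patternQ {ι : Type*} (C : ι → Set X) (c : ι → X) (S : Set ι) (V : Set X)
    (hdisj : ∀ i j x, x ∈ C i → x ∈ C j → i = j) (hC : ∀ i, (C i).OrdConnected)
    (hc : ∀ i, c i ∈ C i) (hV : V.OrdConnected) (hf : {i ∈ S | c i ∈ V}.Finite) :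
    {i ∈ S | (C i ∩ V).Nonempty}.Finite := by
  classical
  have h1 : {i ∈ S | (C i ∩ V).Nonempty} ⊆ {i ∈ S | c i ∈ V} ∪
      ({i ∈ S | (C i ∩ V).Nonempty ∧ ∀ v ∈ V, c i < v} ∪
       {i ∈ S | (C i ∩ V).Nonempty ∧ ∀ v ∈ V, v < c i}) := by
    rintro i ⟨hi, w, hw1, hw2⟩
    by_cases h2 : c i ∈ V
    · exact Or.inl ⟨hi, h2⟩
    · right
      rcases lt_trichotomy (c i) w with h3 | h3 | h3
      · left
        refine ⟨hi, ⟨w, hw1, hw2⟩, fun v hv => ?_⟩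
        by_contra h4
        exact h2 (hV.out hv hw2 ⟨not_lt.1 h4, h3.le⟩)
      · exact absurd (h3 ▸ hw2) h2
      · right
        refine ⟨hi, ⟨w, hw1, hw2⟩, fun v hv => ?_⟩
        by_contra h4
        exact h2 (hV.out hw2 hv ⟨h3.le, not_lt.1 h4⟩)
  apply Set.Finite.subset _ h1
  apply hf.union
  apply Set.Finite.union
  · apply Set.Subsingleton.finite
    have h2 : ∀ i j, (C i ∩ V).Nonempty → (∀ v ∈ V, c j < v) → c i < c j → i = j := by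
      rintro i j ⟨w, hw1, hw2⟩ h3 h4
      exact hdisj i j (c j) ((hC i).out (hc i) hw1 ⟨h4.le, (h3 w hw2).le⟩) (hc j)
    rintro i ⟨_, hi, hi2⟩ j ⟨_, hj, hj2⟩
    rcases lt_trichotomy (c i) (c j) with h3 | h3 | h3
    · exact h2 i j hi hj2 h3
    · exact hdisj i j (c i) (hc i) (h3 ▸ hc j)
    · exact (h2 j i hj hi2 h3).symm
  · apply Set.Subsingleton.finite
    have h2 : ∀ i j, (C i ∩ V).Nonempty → (∀ v ∈ V, v < c j) → c j < c i → i = j := by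
      rintro i j ⟨w, hw1, hw2⟩ h3 h4
      exact hdisj i j (c j) ((hC i).out hw1 (hc i) ⟨(h3 w hw2).le, h4.le⟩) (hc j)
    rintro i ⟨_, hi, hi2⟩ j ⟨_, hj, hj2⟩
    rcases lt_trichotomy (c i) (c j) with h3 | h3 | h3
    · exact (h2 j i hj hi2 h3).symm
    · exact hdisj i j (c i) (hc i) (h3 ▸ hc j)
    · exact h2 i j hi hj2 h3

/-- a family of nondegenerate classes with respect to the set `D` -/
structure Fam {ι : Type*} (D : Set X) (C : ι → Set X) (P Q : ι → X) : Prop where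
  disj : ∀ i j x, x ∈ C i → x ∈ C j → i = j
  conv : ∀ i, (C i).OrdConnected
  hP : ∀ i, P i ∈ C i
  hQ : ∀ i, Q i ∈ C i
  lt : ∀ i, P i < Q i
  sepR : ∀ i, ∀ x ∈ C i, ∀ y ∉ C i, x < y → ∃ d ∈ D, x < d ∧ d ≤ y
  sepL : ∀ i, ∀ x ∈ C i, ∀ y ∉ C i, y < x → ∃ d ∈ D, d < x ∧ y ≤ d

theorem Fam.dual {ι : Type*} {D : Set X} {C : ι → Set X} {P Q : ι → X} (hF : Fam D C P Q) :
    Fam (X := Xᵒᵈ) D C Q P where
  disj := hF.disj
  conv i := ⟨fun _ ha _ hb _ hc => (hF.conv i).out hb ha ⟨hc.2, hc.1⟩⟩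
  hP := hF.hQ
  hQ := hF.hP
  lt := hF.lt
  sepR i x hx y hy hxy := hF.sepL i x hx y hy hxy
  sepL i x hx y hy hxy := hF.sepR i x hx y hy hxy

/-- Lemma 7, one-sided -/
theorem Fam.oneside {ι : Type*} (h : IsGO X) (hs : HS X) {D : Set X} {C : ι → Set X} {P Q : ι → X}
    (hF : Fam D C P Q) (Dm : ℕ → Set X) (hD : ∀ d ∈ D, ∃ m, d ∈ Dm m) (hLF : ∀ m, LFs (Dm m)) :
    ∃ k : ι → ℕ, ∀ n, ∀ z, (∀ i, z ∈ C i → z ≤ P i) →
      ∃ V ∈ 𝓝 z, {i | k i = n ∧ (C i ∩ V).Nonempty}.Finite := by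
  classical
  let Z : Set X := {z | ∀ i, z ∈ C i → z ≤ P i}
  obtain ⟨F, κ, S⟩ := hs Z
  have hPZ : ∀ i, P i ∈ Z := by
    intro i j hj
    rw [hF.disj j i (P i) hj (hF.hP i)]
  have hPinj : ∀ i j, P i = P j → i = j := fun i j hij => hF.disj i j (P i) (hF.hP i) (hij ▸ hF.hP j)
  -- points of Z above P i are above C i
  have hZa : ∀ i, ∀ y ∈ Z, P i < y → ∀ c ∈ C i, c < y := by
    intro i y hy hPy c hc
    by_contra h1
    have h2 : y ∈ C i := (hF.conv i).out (hF.hP i) hc ⟨hPy.le, not_lt.1 h1⟩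
    exact absurd (hy i h2) (not_le.2 hPy)
  have key : ∀ i, ∃ (n : ℕ) (s : Set X) (m : ℕ) (d : X), (∃ y, ∀ c ∈ C i, c < y) →
      (s ∈ F n ∧ d ∈ Dm m ∧ P i ∈ s ∧ P i < d ∧ ∀ y ∈ s, P i < y → d ≤ y) := by
    intro i
    by_cases htop : ∃ y, ∀ c ∈ C i, c < y
    swap
    · exact ⟨0, ∅, 0, P i, fun h => absurd h htop⟩
    by_cases hmin : ∃ β, (∀ c ∈ C i, c < β) ∧ ∀ y, (∀ c ∈ C i, c < y) → β ≤ y
    · obtain ⟨β, hβ, hβ2⟩ := hmin
      obtain ⟨d, hd, hPd, hdβ⟩ := hF.sepR i (P i) (hF.hP i) β (fun h1 => absurd (hβ β h1) (lt_irrefl _))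
        (hβ _ (hF.hP i))
      obtain ⟨m, hm⟩ := hD d hd
      obtain ⟨n, s, hsF, hs1, hs2⟩ := S.net (P i) (hPZ i) univ isOpen_univ (subset_univ _)
      refine ⟨n, s, m, d, fun _ => ⟨hsF, hm, hs1 (S.mem _ (hPZ i)), hPd, ?_⟩⟩
      intro y hy hPy
      exact hdβ.trans (hβ2 y (hZa i y (S.sub n s hsF hy) hPy))
    · push Not at hmin
      obtain ⟨b, hb, hb2⟩ := (S.cc _ (hPZ i)).gap' h hs (B := {y | ∀ c ∈ C i, c < y}) htop hmin (by
        intro p hp hpB hpc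
        have hpP : p ≤ P i := by
          by_contra h1
          exact hpB (hZa i p (S.ksub _ (hPZ i) hp) (not_le.1 h1))
        obtain ⟨y, hy1, hy2⟩ := mem_closure_iff.1 hpc (Iio (Q i)) (h.io _) (hpP.trans_lt (hF.lt i))
        exact lt_asymm hy1 (hy2.2 _ (hF.hQ i)))
      obtain ⟨d, hd, hPd, hdb⟩ := hF.sepR i (P i) (hF.hP i) b (fun h1 => absurd (hb b h1) (lt_irrefl _))
        (hb _ (hF.hP i))
      obtain ⟨m, hm⟩ := hD d hd
      obtain ⟨n, s, hsF, hs1, hs2⟩ := S.net (P i) (hPZ i) (Iio (Q i) ∪ Ioi b)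
        ((h.io _).union (h.oi _)) (by
          intro x hx
          rcases le_or_gt x (P i) with h1 | h1
          · exact Or.inl (h1.trans_lt (hF.lt i))
          · exact Or.inr (hb2 x hx (hZa i x (S.ksub _ (hPZ i) hx) h1)))
      refine ⟨n, s, m, d, fun _ => ⟨hsF, hm, hs1 (S.mem _ (hPZ i)), hPd, ?_⟩⟩
      intro y hy hPy
      rcases hs2 hy with h1 | h1
      · exact absurd (hZa i y (S.sub n s hsF hy) hPy _ (hF.hQ i)) (not_lt.2 (le_of_lt h1))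
      · exact hdb.trans (le_of_lt h1)
  choose n s m d hk using key
  refine ⟨fun i => if (∃ y, ∀ c ∈ C i, c < y) then Nat.pair (n i) (m i) + 1 else 0, ?_⟩
  rintro (_ | q) z hz
  · refine ⟨univ, univ_mem, ?_⟩
    apply Set.Subsingleton.finite
    have h1 : ∀ i j, P i < P j → (∃ y, ∀ c ∈ C i, c < y) := by
      intro i j hij
      exact ⟨P j, hZa i (P j) (hPZ j) hij⟩
    rintro i ⟨hi, -⟩ j ⟨hj, -⟩
    dsimp only at hi hj
    rcases lt_trichotomy (P i) (P j) with h3 | h3 | h3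
    · rw [if_pos (h1 i j h3)] at hi
      exact absurd hi (Nat.succ_ne_zero _)
    · exact hPinj i j h3
    · rw [if_pos (h1 j i h3)] at hj
      exact absurd hj (Nat.succ_ne_zero _)
  · obtain ⟨V1, hV1, hV1f⟩ := S.lf (Nat.unpair q).1 z hz
    obtain ⟨V2, hV2, hV2f⟩ := hLF (Nat.unpair q).2 z
    obtain ⟨V, hVV, hVo, hVc, hVm⟩ := h.bas _ _ (inter_mem hV1 hV2)
    refine ⟨V, hVo.mem_nhds hVm, ?_⟩
    let T : Set ι := {i | (∃ y, ∀ c ∈ C i, c < y) ∧ n i = (Nat.unpair q).1 ∧ m i = (Nat.unpair q).2}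
    have hT : {i ∈ T | P i ∈ V}.Finite := by
      apply patternP P d s T (F (Nat.unpair q).1) (Dm (Nat.unpair q).2) V hPinj
      · rintro i ⟨hi1, hi2, hi3⟩
        rw [← hi2]
        exact (hk i hi1).1
      · rintro i ⟨hi1, hi2, hi3⟩
        exact (hk i hi1).2.2.1
      · rintro i ⟨hi1, hi2, hi3⟩
        rw [← hi3]
        exact (hk i hi1).2.1
      · rintro i ⟨hi1, hi2, hi3⟩
        exact (hk i hi1).2.2.2.1
      · rintro i ⟨hi1, hi2, hi3⟩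
        exact (hk i hi1).2.2.2.2
      · exact hVc
      · apply hV1f.subset
        rintro t ⟨ht, w, hw1, hw2⟩
        exact ⟨ht, w, hw1, (hVV hw2).1⟩
      · apply hV2f.subset
        rintro w ⟨hw1, hw2⟩
        exact ⟨hw1, (hVV hw2).2⟩
    apply (patternQ C P T V hF.disj hF.conv hF.hP hVc hT).subset
    rintro i ⟨hi1, hi2⟩
    refine ⟨?_, hi2⟩
    dsimp only at hi1
    split_ifs at hi1 with h4
    · have h5 : Nat.pair (n i) (m i) = q := Nat.succ_injective hi1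
      refine ⟨h4, ?_, ?_⟩ <;> rw [← h5] <;> simp

/-- Lemma 7 -/
theorem Fam.sigmaLF {ι : Type*} (h : IsGO X) (hs : HS X) {D : Set X} {C : ι → Set X} {P Q : ι → X}
    (hF : Fam D C P Q) (Dm : ℕ → Set X) (hD : ∀ d ∈ D, ∃ m, d ∈ Dm m) (hLF : ∀ m, LFs (Dm m)) :
    ∃ k : ι → ℕ, ∀ n, ∀ z, ∃ V ∈ 𝓝 z, {i | k i = n ∧ (C i ∩ V).Nonempty}.Finite := by
  classical
  obtain ⟨k1, hk1⟩ := hF.oneside h hs Dm hD hLF
  obtain ⟨k2, hk2⟩ := hF.dual.oneside h.dual hs.dual Dm hD hLF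
  refine ⟨fun i => Nat.pair (k1 i) (k2 i), ?_⟩
  intro n z
  by_cases h1 : ∀ i, z ∈ C i → z ≤ P i
  · obtain ⟨V, hV, hVf⟩ := hk1 (Nat.unpair n).1 z h1
    refine ⟨V, hV, hVf.subset ?_⟩
    rintro i ⟨hi1, hi2⟩
    refine ⟨?_, hi2⟩
    rw [← hi1]
    simp
  · by_cases h2 : ∀ i, z ∈ C i → Q i ≤ z
    · obtain ⟨V, hV, hVf⟩ := hk2 (Nat.unpair n).2 z h2
      refine ⟨V, hV, hVf.subset ?_⟩
      rintro i ⟨hi1, hi2⟩
      refine ⟨?_, hi2⟩
      rw [← hi1]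
      simp
    · push Not at h1 h2
      obtain ⟨i, hi, hi2⟩ := h1
      obtain ⟨j, hj, hj2⟩ := h2
      have hij := hF.disj i j z hi hj
      subst hij
      refine ⟨Ioo (P i) (Q i), ((h.oi _).inter (h.io _)).mem_nhds ⟨hi2, hj2⟩, ?_⟩
      apply Set.Subsingleton.finite
      have h3 : ∀ j, (C j ∩ Ioo (P i) (Q i)).Nonempty → j = i := by
        rintro j ⟨w, hw1, hw2⟩
        exact hF.disj j i w hw1 ((hF.conv i).out (hF.hP i) (hF.hQ i) ⟨hw2.1.le, hw2.2.le⟩)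
      rintro j ⟨-, hj⟩ l ⟨-, hl⟩
      rw [h3 j hj, h3 l hl]

/-- Lemma 8 -/
theorem oneSided_sigmaLF (h : IsGO X) (hs : HS X) (Dm : ℕ → Set X) (hLF : ∀ m, LFs (Dm m))
    (hsep : ∀ x y, x < y → ∃ m, ∃ d ∈ Dm m, x ≤ d ∧ d ≤ y) :
    ∃ k : X → ℕ, ∀ n, LFs {x | ((∀ m, x ∉ Dm m) ∧ IsOpen (Iic x)) ∧ k x = n} := by
  classical
  obtain ⟨F, κ, S⟩ := hs univ
  have hsep' : ∀ x y, (∀ m, x ∉ Dm m) → x < y → ∃ m, ∃ d ∈ Dm m, x < d ∧ d ≤ y := by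
    intro x y hx hxy
    obtain ⟨m, d, hd, h1, h2⟩ := hsep x y hxy
    refine ⟨m, d, hd, lt_of_le_of_ne h1 ?_, h2⟩
    rintro rfl
    exact hx m hd
  have key : ∀ x, ∃ (n : ℕ) (s : Set X) (m : ℕ) (d : X), (∃ y, x < y) → (∀ m, x ∉ Dm m) →
      IsOpen (Iic x) → (s ∈ F n ∧ d ∈ Dm m ∧ x ∈ s ∧ x < d ∧ ∀ y ∈ s, x < y → d ≤ y) := by
    intro x
    by_cases htop : (∃ y, x < y) ∧ (∀ m, x ∉ Dm m) ∧ IsOpen (Iic x)
    swap
    · exact ⟨0, ∅, 0, x, fun h1 h2 h3 => absurd ⟨h1, h2, h3⟩ htop⟩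
    obtain ⟨htop, hxD, hxo⟩ := htop
    by_cases hmin : ∃ β, x < β ∧ ∀ y, x < y → β ≤ y
    · obtain ⟨β, hβ, hβ2⟩ := hmin
      obtain ⟨m, d, hd, hxd, hdβ⟩ := hsep' x β hxD hβ
      obtain ⟨n, s, hsF, hs1, hs2⟩ := S.net x (mem_univ _) univ isOpen_univ (subset_univ _)
      refine ⟨n, s, m, d, fun _ _ _ => ⟨hsF, hd, hs1 (S.mem _ (mem_univ _)), hxd, ?_⟩⟩
      intro y hy hxy
      exact hdβ.trans (hβ2 y hxy)
    · push Not at hmin
      obtain ⟨b, hb, hb2⟩ := (S.cc x (mem_univ _)).gap' h hs (B := Ioi x) htop hmin (by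
        intro p hp hpB hpc
        obtain ⟨y, hy1, hy2⟩ := mem_closure_iff.1 hpc (Iic x) hxo (not_lt.1 hpB)
        exact absurd hy2.2 (not_lt.2 hy1))
      obtain ⟨m, d, hd, hxd, hdb⟩ := hsep' x b hxD hb
      obtain ⟨n, s, hsF, hs1, hs2⟩ := S.net x (mem_univ _) (Iic x ∪ Ioi b)
        (hxo.union (h.oi _)) (by
          intro y hy
          rcases le_or_gt y x with h1 | h1
          · exact Or.inl h1
          · exact Or.inr (hb2 y hy h1))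
      refine ⟨n, s, m, d, fun _ _ _ => ⟨hsF, hd, hs1 (S.mem _ (mem_univ _)), hxd, ?_⟩⟩
      intro y hy hxy
      rcases hs2 hy with h1 | h1
      · exact absurd hxy (not_lt.2 h1)
      · exact hdb.trans (le_of_lt h1)
  choose n s m d hk using key
  refine ⟨fun x => if (∃ y, x < y) then Nat.pair (n x) (m x) + 1 else 0, ?_⟩
  rintro (_ | q) z
  · refine ⟨univ, univ_mem, ?_⟩
    apply Set.Subsingleton.finite
    rintro i ⟨⟨-, hi⟩, -⟩ j ⟨⟨-, hj⟩, -⟩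
    dsimp only at hi hj
    rcases lt_trichotomy i j with h3 | h3 | h3
    · rw [if_pos (⟨j, h3⟩ : ∃ y, i < y)] at hi
      exact absurd hi (Nat.succ_ne_zero _)
    · exact h3
    · rw [if_pos (⟨i, h3⟩ : ∃ y, j < y)] at hj
      exact absurd hj (Nat.succ_ne_zero _)
  · obtain ⟨V1, hV1, hV1f⟩ := S.lf (Nat.unpair q).1 z (mem_univ _)
    obtain ⟨V2, hV2, hV2f⟩ := hLF (Nat.unpair q).2 z
    obtain ⟨V, hVV, hVo, hVc, hVm⟩ := h.bas _ _ (inter_mem hV1 hV2)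
    refine ⟨V, hVo.mem_nhds hVm, ?_⟩
    let T : Set X := {x | (∃ y, x < y) ∧ ((∀ m, x ∉ Dm m) ∧ IsOpen (Iic x)) ∧
      n x = (Nat.unpair q).1 ∧ m x = (Nat.unpair q).2}
    have hT : {i ∈ T | i ∈ V}.Finite := by
      apply patternP id d s T (F (Nat.unpair q).1) (Dm (Nat.unpair q).2) V (fun i j hij => hij)
      · rintro i ⟨hi1, hi4, hi2, hi3⟩
        rw [← hi2]
        exact (hk i hi1 hi4.1 hi4.2).1
      · rintro i ⟨hi1, hi4, hi2, hi3⟩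
        exact (hk i hi1 hi4.1 hi4.2).2.2.1
      · rintro i ⟨hi1, hi4, hi2, hi3⟩
        rw [← hi3]
        exact (hk i hi1 hi4.1 hi4.2).2.1
      · rintro i ⟨hi1, hi4, hi2, hi3⟩
        exact (hk i hi1 hi4.1 hi4.2).2.2.2.1
      · rintro i ⟨hi1, hi4, hi2, hi3⟩
        exact (hk i hi1 hi4.1 hi4.2).2.2.2.2
      · exact hVc
      · apply hV1f.subset
        rintro t ⟨ht, w, hw1, hw2⟩
        exact ⟨ht, w, hw1, (hVV hw2).1⟩
      · apply hV2f.subset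
        rintro w ⟨hw1, hw2⟩
        exact ⟨hw1, (hVV hw2).2⟩
    apply hT.subset
    rintro i ⟨⟨hi0, hi1⟩, hi2⟩
    refine ⟨?_, hi2⟩
    dsimp only at hi1
    split_ifs at hi1 with h4
    · have h5 : Nat.pair (n i) (m i) = q := Nat.succ_injective hi1
      refine ⟨h4, hi0, ?_, ?_⟩ <;> rw [← h5] <;> simp

end Pool.Agent.H893R2
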