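import Pool.Agent.H893R2.GO3

set_option autoImplicit false
set_option linter.unusedSectionVars false
open Set Topology Filter

namespace Pool.Agent.H893R2

variable {X : Type*} [LinearOrder X] [TopologicalSpace X]

/-- the `A`-class of `x` (empty if `x ∈ A`) -/
def cls (A : Set X) (x : X) : Set X := {y | ∀ a ∈ A, a ∉ uIcc x y}

/-- points in nondegenerate classes -/
def Nd (A : Set X) : Set X := {x | ∃ y, y ≠ x ∧ y ∈ cls A x}

theorem cls_symm {A : Set X} {x y : X} (hy : y ∈ cls A x) : x ∈ cls A y := by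
  intro a ha
  rw [uIcc_comm]
  exact hy a ha

theorem cls_trans {A : Set X} {x y z : X} (hy : y ∈ cls A x) (hz : z ∈ cls A y) : z ∈ cls A x := by
  intro a ha h1
  rcases uIcc_subset_uIcc_union_uIcc (b := y) h1 with h2 | h2
  · exact hy a ha h2
  · exact hz a ha h2

theorem cls_eq {A : Set X} {x y : X} (hy : y ∈ cls A x) : cls A y = cls A x := by
  ext z
  exact ⟨fun hz => cls_trans hy hz, fun hz => cls_trans (cls_symm hy) hz⟩

theorem cls_notMem {A : Set X} {x y : X} (hy : y ∈ cls A x) : y ∉ A := fun h => hy y h right_mem_uIcc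

theorem cls_refl {A : Set X} {x : X} (hx : x ∉ A) : x ∈ cls A x := by
  intro a ha h1
  rw [uIcc_self, mem_singleton_iff] at h1
  exact hx (h1 ▸ ha)

theorem cls_anti {A B : Set X} (hAB : A ⊆ B) (x : X) : cls B x ⊆ cls A x :=
  fun _ hy a ha => hy a (hAB ha)

theorem cls_conv (A : Set X) (x : X) : (cls A x).OrdConnected := by
  constructor
  intro y hy z hz w hw a ha h1
  rcases le_or_gt x w with h2 | h2
  · rw [uIcc_of_le h2] at h1
    apply hz a ha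
    rw [uIcc_of_le (h2.trans hw.2)]
    exact ⟨h1.1, h1.2.trans hw.2⟩
  · rw [uIcc_of_ge h2.le] at h1
    apply hy a ha
    rw [uIcc_of_ge (hw.1.trans h2.le)]
    exact ⟨hw.1.trans h1.1, h1.2⟩

theorem Nd_notMem {A : Set X} {x : X} (hx : x ∈ Nd A) : x ∉ A := by
  obtain ⟨y, -, hy⟩ := hx
  exact fun h => hy x h left_mem_uIcc

theorem Nd_refl {A : Set X} {x : X} (hx : x ∈ Nd A) : x ∈ cls A x := cls_refl (Nd_notMem hx)

theorem Nd_anti {A B : Set X} (hAB : A ⊆ B) : Nd B ⊆ Nd A := by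
  rintro x ⟨y, h1, h2⟩
  exact ⟨y, h1, cls_anti hAB x h2⟩

theorem Nd_cls {A : Set X} {x y : X} (hx : x ∈ Nd A) (hy : y ∈ cls A x) : y ∈ Nd A := by
  by_cases hxy : x = y
  · exact hxy ▸ hx
  · exact ⟨x, hxy, cls_symm hy⟩

/-- countably many nondegenerate classes -/
theorem classes_countable (h : IsGO X) (hs : HS X) (hL : IsLindelof (univ : Set X)) {A : Set X}
    (hA : A.Countable) : {C : Set X | ∃ x ∈ Nd A, C = cls A x}.Countable := by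
  classical
  obtain ⟨f, hf⟩ := Set.countable_iff_exists_injOn.1 hA
  let Dm : ℕ → Set X := fun m => {a ∈ A | f a = m}
  have hD : ∀ d ∈ A, ∃ m, d ∈ Dm m := fun d hd => ⟨f d, hd, rfl⟩
  have hLF : ∀ m, LFs (Dm m) := by
    intro m z
    refine ⟨univ, univ_mem, ?_⟩
    apply Set.Subsingleton.finite
    rintro a ⟨⟨ha, ha2⟩, -⟩ b ⟨⟨hb, hb2⟩, -⟩
    exact hf ha hb (ha2.trans hb2.symm)
  have hPQ : ∀ C : {C : Set X // ∃ x ∈ Nd A, C = cls A x}, ∃ p q : X, p ∈ C.1 ∧ q ∈ C.1 ∧ p < q := by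
    rintro ⟨_, x, hx, rfl⟩
    have hx1 := Nd_refl hx
    obtain ⟨y, hy, hy2⟩ := hx
    rcases lt_or_gt_of_ne hy with h1 | h1
    · exact ⟨y, x, hy2, hx1, h1⟩
    · exact ⟨x, y, hx1, hy2, h1⟩
  choose P Q hP hQ hPQ using hPQ
  have hF : Fam A (fun C : {C : Set X // ∃ x ∈ Nd A, C = cls A x} => C.1) P Q := by
    refine ⟨?_, ?_, hP, hQ, hPQ, ?_, ?_⟩
    · rintro ⟨_, x, hx, rfl⟩ ⟨_, y, hy, rfl⟩ z hz1 hz2
      apply Subtype.ext
      dsimp only at hz1 hz2 ⊢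
      rw [← cls_eq hz1, cls_eq hz2]
    · rintro ⟨_, x, hx, rfl⟩
      exact cls_conv A x
    · rintro ⟨_, w, hw, rfl⟩ x hx y hy hxy
      dsimp only at hx hy
      have h1 : y ∉ cls A x := fun h2 => hy (cls_trans hx h2)
      simp only [cls, mem_ofPred_eq, not_forall, not_not] at h1
      obtain ⟨a, ha, ha2⟩ := h1
      rw [uIcc_of_le hxy.le] at ha2
      exact ⟨a, ha, lt_of_le_of_ne ha2.1 (fun h2 => cls_notMem hx (h2 ▸ ha)), ha2.2⟩
    · rintro ⟨_, w, hw, rfl⟩ x hx y hy hxy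
      dsimp only at hx hy
      have h1 : y ∉ cls A x := fun h2 => hy (cls_trans hx h2)
      simp only [cls, mem_ofPred_eq, not_forall, not_not] at h1
      obtain ⟨a, ha, ha2⟩ := h1
      rw [uIcc_of_ge hxy.le] at ha2
      exact ⟨a, ha, lt_of_le_of_ne ha2.2 (fun h2 => cls_notMem hx (h2 ▸ ha)), ha2.1⟩
  obtain ⟨k, hk⟩ := hF.sigmaLF h hs Dm hD hLF
  have h1 : ∀ n, {C : {C : Set X // ∃ x ∈ Nd A, C = cls A x} | k C = n}.Countable := by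
    intro n
    have h2 := lind_countable (fun C : {C : Set X // ∃ x ∈ Nd A, C = cls A x} => C.1) {C | k C = n} hL
      (fun z _ => by
        obtain ⟨V, hV, hVf⟩ := hk n z
        exact ⟨V, hV, hVf.countable⟩)
    apply h2.mono
    intro C hC
    exact ⟨hC, P C, hP C, mem_univ _⟩
  have h2 : (univ : Set {C : Set X // ∃ x ∈ Nd A, C = cls A x}).Countable := by
    apply (countable_iUnion h1).mono
    intro C _
    exact mem_iUnion.2 ⟨k C, rfl⟩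
  have h3 := h2.image Subtype.val
  apply h3.mono
  intro C hC
  exact ⟨⟨C, hC⟩, mem_univ _, rfl⟩

/-- enlarging operator -/
theorem exists_Phi (h : IsGO X) (hs : HS X) (hL : IsLindelof (univ : Set X)) :
    ∃ Φ : Set X → Set X, ∀ A : Set X, A.Countable → (A ⊆ Φ A ∧ (Φ A).Countable ∧
      (∀ x ∈ Nd A, ∃ b ∈ Φ A, b ∈ cls A x ∧ x ≤ b) ∧
      (∀ x ∈ Nd A, ∃ a ∈ Φ A, a ∈ cls A x ∧ a ≤ x)) := by
  classical
  have h1 : ∀ P : Set X, ∃ A ⊆ P, A.Countable ∧ (∀ x ∈ P, ∃ a ∈ A, x ≤ a) ∧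
      (∀ x ∈ P, ∃ a ∈ A, a ≤ x) := by
    intro P
    obtain ⟨A, hA1, hA2, hA3⟩ := exists_cof_lind h hs hL P
    obtain ⟨B, hB1, hB2, hB3⟩ := exists_coi_lind h hs hL P
    refine ⟨A ∪ B, union_subset hA1 hB1, hA2.union hB2, ?_, ?_⟩
    · intro x hx
      obtain ⟨a, ha, ha2⟩ := hA3 x hx
      exact ⟨a, Or.inl ha, ha2⟩
    · intro x hx
      obtain ⟨a, ha, ha2⟩ := hB3 x hx
      exact ⟨a, Or.inr ha, ha2⟩
  choose G hG1 hG2 hG3 hG4 using h1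
  refine ⟨fun A => A ∪ ⋃ C ∈ {C : Set X | ∃ x ∈ Nd A, C = cls A x}, G C, ?_⟩
  intro A hA
  refine ⟨subset_union_left, hA.union ((classes_countable h hs hL hA).biUnion (fun C _ => hG2 C)), ?_, ?_⟩
  · intro x hx
    obtain ⟨b, hb, hxb⟩ := hG3 (cls A x) x (Nd_refl hx)
    refine ⟨b, Or.inr ?_, hG1 _ hb, hxb⟩
    simp only [mem_iUnion]
    exact ⟨cls A x, ⟨x, hx, rfl⟩, hb⟩
  · intro x hx
    obtain ⟨b, hb, hxb⟩ := hG4 (cls A x) x (Nd_refl hx)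
    refine ⟨b, Or.inr ?_, hG1 _ hb, hxb⟩
    simp only [mem_iUnion]
    exact ⟨cls A x, ⟨x, hx, rfl⟩, hb⟩

open IsOm in
/-- the tower -/
structure Tower {I : Type*} [LinearOrder I] [IsOm I] (A : I → Set X) : Prop where
  cnt : ∀ i, (A i).Countable
  mono : ∀ j i, j ≤ i → A j ⊆ A i
  up : ∀ j i, j < i → ∀ x ∈ Nd (A j), ∃ b ∈ A i, b ∈ cls (A j) x ∧ x ≤ b
  dn : ∀ j i, j < i → ∀ x ∈ Nd (A j), ∃ a ∈ A i, a ∈ cls (A j) x ∧ a ≤ x
  lim : ∀ δ, Lim δ → ∀ a ∈ A δ, ∃ i < δ, a ∈ A i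

open IsOm in
theorem exists_tower {I : Type*} [LinearOrder I] [hI : IsOm I] (h : IsGO X) (hs : HS X)
    (hL : IsLindelof (univ : Set X)) : ∃ A : I → Set X, Tower A := by
  classical
  obtain ⟨Φ, hΦ⟩ := exists_Phi h hs hL
  have := hI.wf
  let A : I → Set X := (wellFounded_lt (α := I)).fix
    (fun i ih => ⋃ j, ⋃ h : j < i, Φ (ih j h))
  have hA : ∀ i, A i = ⋃ j, ⋃ _ : j < i, Φ (A j) := by
    intro i
    exact (wellFounded_lt (α := I)).fix_eq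
      (fun i (ih : (j : I) → j < i → Set X) => ⋃ j, ⋃ h : j < i, Φ (ih j h)) i
  have hmem : ∀ i x, x ∈ A i ↔ ∃ j, j < i ∧ x ∈ Φ (A j) := by
    intro i x
    rw [hA]
    simp only [mem_iUnion, exists_prop]
  have hcnt : ∀ i, (A i).Countable := by
    intro i
    induction i using (wellFounded_lt (α := I)).induction with
    | _ i ih =>
      rw [hA]
      exact (IsOm.cb i).biUnion (fun j hj => (hΦ _ (ih j hj)).2.1)
  refine ⟨A, hcnt, ?_, ?_, ?_, ?_⟩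
  · intro j i hji x hx
    rw [hmem] at hx ⊢
    obtain ⟨l, hl, hx⟩ := hx
    exact ⟨l, hl.trans_le hji, hx⟩
  · intro j i hji x hx
    obtain ⟨b, hb, hb2⟩ := (hΦ _ (hcnt j)).2.2.1 x hx
    exact ⟨b, (hmem i b).2 ⟨j, hji, hb⟩, hb2⟩
  · intro j i hji x hx
    obtain ⟨b, hb, hb2⟩ := (hΦ _ (hcnt j)).2.2.2 x hx
    exact ⟨b, (hmem i b).2 ⟨j, hji, hb⟩, hb2⟩
  · intro δ hδ a ha
    obtain ⟨j, hj, ha⟩ := (hmem δ a).1 ha
    exact ⟨sc j, hδ.sc_lt hj, (hmem _ _).2 ⟨j, lt_sc j, ha⟩⟩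

section tower
open IsOm
variable {I : Type*} [LinearOrder I] [hI : IsOm I] {A : I → Set X}

theorem Tower.f2b (T : Tower A) {j i : I} (hji : j < i) {x : X} (hx : x ∈ Nd (A i)) :
    ∃ b ∈ A i, b ∈ cls (A j) x ∧ ∀ y ∈ cls (A i) x, y < b := by
  obtain ⟨b, hb, hb2, hb3⟩ := T.up j i hji x (Nd_anti (T.mono j i hji.le) hx)
  refine ⟨b, hb, hb2, ?_⟩
  intro y hy
  by_contra h1
  apply hy b hb
  rw [uIcc_of_le (hb3.trans (not_lt.1 h1))]
  exact ⟨hb3, not_lt.1 h1⟩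

theorem Tower.f2a (T : Tower A) {j i : I} (hji : j < i) {x : X} (hx : x ∈ Nd (A i)) :
    ∃ b ∈ A i, b ∈ cls (A j) x ∧ ∀ y ∈ cls (A i) x, b < y := by
  obtain ⟨b, hb, hb2, hb3⟩ := T.dn j i hji x (Nd_anti (T.mono j i hji.le) hx)
  refine ⟨b, hb, hb2, ?_⟩
  intro y hy
  by_contra h1
  apply hy b hb
  rw [uIcc_of_ge ((not_lt.1 h1).trans hb3)]
  exact ⟨not_lt.1 h1, hb3⟩

/-- (F4) -/
theorem Tower.chain (T : Tower A) (h : IsGO X) (hs : HS X) (hL : IsLindelof (univ : Set X))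
    (S : Set I) (hS : ¬ S.Countable) (x : I → X) (hx : ∀ i ∈ S, x i ∈ Nd (A i))
    (hc : ∀ i ∈ S, ∀ j ∈ S, i < j → x j ∈ cls (A i) (x i)) : False := by
  have hSO : IsOm ↥S := IsOm.sub hS
  obtain ⟨nx, hnx1, hnx2⟩ : ∃ nx : ↥S → ↥S, (∀ i, i < nx i) ∧ ∀ i j, i < j → nx i ≤ j :=
    ⟨sc, lt_sc, fun _ _ h => sc_le h⟩
  have h1 : ∀ i : ↥S, ∃ b, b ∈ cls (A i.1) (x (nx i).1) ∧
      ∀ y ∈ cls (A (nx i).1) (x (nx i).1), y < b := by
    intro i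
    obtain ⟨b, -, hb2, hb3⟩ := T.f2b (j := i.1) (i := (nx i).1) (hnx1 i) (hx _ (nx i).2)
    exact ⟨b, hb2, hb3⟩
  choose b hb1 hb2 using h1
  apply no_seq_lind' (I := ↥S) h hs hL b
  intro i j hij
  apply hb2 i
  have h2 : b j ∈ cls (A j.1) (x j.1) :=
    cls_trans (hc _ j.2 _ (nx j).2 (hnx1 j)) (hb1 j)
  have h3 : b j ∈ cls (A (nx i).1) (x j.1) := cls_anti (T.mono _ _ (hnx2 i j hij)) _ h2
  rcases eq_or_lt_of_le (hnx2 i j hij) with h4 | h4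
  · rw [h4] at h3 ⊢
    exact h3
  · exact cls_trans (hc _ (nx i).2 _ j.2 h4) h3

/-- (F3) -/
theorem Tower.leave (T : Tower A) (h : IsGO X) (hs : HS X) (hL : IsLindelof (univ : Set X))
    (x : X) : ∃ i, x ∉ Nd (A i) := by
  by_contra hno
  push Not at hno
  exact T.chain h hs hL univ hI.unc (fun _ => x) (fun i _ => hno i) (fun i _ j _ _ => Nd_refl (hno i))

theorem Tower.great (T : Tower A) {δ i : I} (hi : δ < i) {p : X} (hp : p ∈ Nd (A δ))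
    (hg : (∀ y ∈ cls (A δ) p, p ≤ y) ∨ (∀ y ∈ cls (A δ) p, y ≤ p)) : p ∈ A i := by
  rcases hg with hg | hg
  · obtain ⟨a, ha, ha2, ha3⟩ := T.dn δ i hi p hp
    rwa [← le_antisymm ha3 (hg a ha2)]
  · obtain ⟨a, ha, ha2, ha3⟩ := T.up δ i hi p hp
    rwa [← le_antisymm (hg a ha2) ha3]

/-- closing function -/
theorem Tower.closing (T : Tower A) (h : IsGO X) (hs : HS X) (hL : IsLindelof (univ : Set X))
    (F : ℕ → Set (Set X)) : ∃ g : I → I, ∀ i n, ∀ s ∈ F n, ∀ a ∈ A i, ∀ b ∈ A i, ∀ a' ∈ A i,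
      ∀ b' ∈ A i, {s' ∈ F n | (s' ∩ Ioo a b).Nonempty}.Countable → (s ∩ Ioo a b).Nonempty →
      (s ∩ Ioo a' b').Nonempty → ∃ y ∈ s ∩ Ioo a' b', y ∉ Nd (A (g i)) := by
  classical
  obtain ⟨i0⟩ : Nonempty I := by
    by_contra h
    rw [not_nonempty_iff] at h
    exact IsOm.unc (I := I) (Set.to_countable _)
  have h1 : ∀ (s : Set X) (a' b' : X), ∃ l : I, (s ∩ Ioo a' b').Nonempty →
      ∃ y ∈ s ∩ Ioo a' b', y ∉ Nd (A l) := by
    intro s a' b'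
    by_cases hne : (s ∩ Ioo a' b').Nonempty
    · obtain ⟨y, hy⟩ := hne
      obtain ⟨l, hl⟩ := T.leave h hs hL y
      exact ⟨l, fun _ => ⟨y, hy, hl⟩⟩
    · exact ⟨i0, fun h2 => absurd h2 hne⟩
  choose l hl using h1
  have h2 : ∀ i, ∃ g : I, ∀ n, ∀ s ∈ F n, ∀ a ∈ A i, ∀ b ∈ A i, ∀ a' ∈ A i,
      ∀ b' ∈ A i, {s' ∈ F n | (s' ∩ Ioo a b).Nonempty}.Countable → (s ∩ Ioo a b).Nonempty →
      l s a' b' < g := by
    intro i
    have h3 : (⋃ n : ℕ, ⋃ a ∈ A i, ⋃ b ∈ A i, ⋃ a' ∈ A i, ⋃ b' ∈ A i,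
        (fun s => l s a' b') '' {s | s ∈ F n ∧ (s ∩ Ioo a b).Nonempty ∧
          {s' ∈ F n | (s' ∩ Ioo a b).Nonempty}.Countable}).Countable := by
      apply countable_iUnion
      intro n
      apply (T.cnt i).biUnion
      intro a _
      apply (T.cnt i).biUnion
      intro b _
      apply (T.cnt i).biUnion
      intro a' _
      apply (T.cnt i).biUnion
      intro b' _
      apply Set.Countable.image
      by_cases hc : {s' ∈ F n | (s' ∩ Ioo a b).Nonempty}.Countable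
      · apply hc.mono
        rintro s ⟨h4, h5, -⟩
        exact ⟨h4, h5⟩
      · convert countable_empty (α := Set X)
        ext s
        simp only [mem_ofPred_eq, mem_empty_iff_false, iff_false]
        exact fun h4 => hc h4.2.2
    obtain ⟨g, hg⟩ := IsOm.bdd h3
    refine ⟨g, ?_⟩
    intro n s hs a ha b hb a' ha' b' hb' hc hne
    apply hg
    simp only [mem_iUnion]
    exact ⟨n, a, ha, b, hb, a', ha', b', hb', s, ⟨hs, hne, hc⟩, rfl⟩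
  choose g hg using h2
  refine ⟨g, ?_⟩
  intro i n s hs a ha b hb a' ha' b' hb' hc hne hne'
  obtain ⟨y, hy, hy2⟩ := hl s a' b' hne'
  refine ⟨y, hy, fun h3 => hy2 (Nd_anti (T.mono _ _ ?_) h3)⟩
  exact (hg i n s hs a ha b hb a' ha' b' hb' hc hne).le

/-- half of the gap argument -/
theorem half_gap (h : IsGO X) (hs : HS X) {K : Set X} (hK : CC K) {A' : Set X} {x : X}
    (hx : x ∉ A') (hlim : ∀ a ∈ A', a < x → ∃ a' ∈ A', a < a' ∧ a' < x)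
    {a0 : X} (ha0 : a0 ∈ A') (ha0x : a0 < x)
    (hnl : ∀ p ∈ K, p ≤ x → (∀ a ∈ A', p ≤ a → a ≤ x → False) →
      ∃ y, y < p ∧ ∀ a ∈ A', y ≤ a → a ≤ x → False) :
    ∃ a1 ∈ A', a1 < x ∧ ∀ k ∈ K, (∃ a ∈ A', a < x ∧ k ≤ a) → k < a1 := by
  obtain ⟨b, ⟨a1, ha1, ha1x, hba1⟩, hb2⟩ := hK.gap h hs (B := {y | ∃ a ∈ A', a < x ∧ y ≤ a})
    ⟨a0, a0, ha0, ha0x, le_rfl⟩ (by
      rintro y ⟨a, ha, hax, hya⟩
      obtain ⟨a', ha', h1, h2⟩ := hlim a ha hax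
      exact ⟨a', ⟨a', ha', h2, le_rfl⟩, hya.trans_lt h1⟩) (by
      intro p hp hpB hpc
      have hpx : p ≤ x := by
        by_contra h1
        obtain ⟨y, hy1, -, a, ha, hax, hya⟩ := mem_closure_iff.1 hpc (Ioi x) (h.oi x) (not_le.1 h1)
        exact absurd (hya.trans_lt hax) (not_lt.2 (le_of_lt hy1))
      have hpc2 : ∀ a ∈ A', p ≤ a → a ≤ x → False := by
        intro a ha hpa hax
        exact hpB ⟨a, ha, lt_of_le_of_ne hax (fun h2 => hx (h2 ▸ ha)), hpa⟩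
      obtain ⟨q, hqp, hq⟩ := hnl p hp hpx hpc2
      obtain ⟨y, hy1, -, a, ha, hax, hya⟩ := mem_closure_iff.1 hpc (Ioi q) (h.oi q) hqp
      exact hq a ha ((le_of_lt hy1).trans hya) hax.le)
  exact ⟨a1, ha1, ha1x, fun k hk hkB => (hb2 k hk hkB).trans_le hba1⟩

theorem half_gap' (h : IsGO X) (hs : HS X) {K : Set X} (hK : CC K) {A' : Set X} {x : X}
    (hx : x ∉ A') (hlim : ∀ a ∈ A', x < a → ∃ a' ∈ A', a' < a ∧ x < a')
    {a0 : X} (ha0 : a0 ∈ A') (ha0x : x < a0)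
    (hnl : ∀ p ∈ K, x ≤ p → (∀ a ∈ A', a ≤ p → x ≤ a → False) →
      ∃ y, p < y ∧ ∀ a ∈ A', a ≤ y → x ≤ a → False) :
    ∃ a1 ∈ A', x < a1 ∧ ∀ k ∈ K, (∃ a ∈ A', x < a ∧ a ≤ k) → a1 < k :=
  half_gap (X := Xᵒᵈ) h.dual hs.dual hK hx hlim ha0 ha0x hnl

/-- Lemma K' -/
theorem Tower.kprime (T : Tower A) (h : IsGO X) (hs : HS X)
    {Y : Set X} {F : ℕ → Set (Set X)} {κ : X → Set X} (S : Sig Y F κ) {g : I → I}
    (hg : ∀ i n, ∀ s ∈ F n, ∀ a ∈ A i, ∀ b ∈ A i, ∀ a' ∈ A i,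
      ∀ b' ∈ A i, {s' ∈ F n | (s' ∩ Ioo a b).Nonempty}.Countable → (s ∩ Ioo a b).Nonempty →
      (s ∩ Ioo a' b').Nonempty → ∃ y ∈ s ∩ Ioo a' b', y ∉ Nd (A (g i)))
    {δ : I} (hδ : Cl g δ) {x : X} (hxY : x ∈ Y) (hx : x ∈ Nd (A δ))
    (hnl : ∀ p ∈ Y, p ∈ cls (A δ) x → ¬ (∀ y ∈ cls (A δ) x, p ≤ y))
    (hng : ∀ p ∈ Y, p ∈ cls (A δ) x → ¬ (∀ y ∈ cls (A δ) x, y ≤ p))
    {a0 b0 : X} (ha0 : a0 ∈ A δ) (hb0 : b0 ∈ A δ) (ha0x : a0 < x) (hb0x : x < b0)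
    (hc : ∀ n, {s ∈ F n | (s ∩ Ioo a0 b0).Nonempty}.Countable) : False := by
  classical
  have hxA : x ∉ A δ := Nd_notMem hx
  have hleft : ∀ p, p ≤ x → (p ∈ cls (A δ) x ↔ ∀ a ∈ A δ, p ≤ a → a ≤ x → False) := by
    intro p hp
    simp only [cls, mem_ofPred_eq, uIcc_of_ge hp, mem_Icc, not_and]
  have hright : ∀ p, x ≤ p → (p ∈ cls (A δ) x ↔ ∀ a ∈ A δ, a ≤ p → x ≤ a → False) := by
    intro p hp
    simp only [cls, mem_ofPred_eq, uIcc_of_le hp, mem_Icc, not_and]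
    exact ⟨fun h1 a ha h2 h3 => h1 a ha h3 h2, fun h1 a ha h2 h3 => h1 a ha h3 h2⟩
  obtain ⟨a1, ha1, ha1x, hA1⟩ := half_gap h hs (S.cc x hxY) hxA (by
      intro a ha hax
      obtain ⟨j, hj, haj⟩ := T.lim δ hδ.1 a ha
      obtain ⟨a', ha', ha'2, ha'3⟩ := T.f2a hj hx
      have h1 := ha'3 x (Nd_refl hx)
      refine ⟨a', ha', ?_, h1⟩
      by_contra h2
      apply ha'2 a haj
      rw [uIcc_of_ge h1.le]
      exact ⟨not_lt.1 h2, hax.le⟩) ha0 ha0x (by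
      intro p hp hpx hpc
      have h1 := (hleft p hpx).2 hpc
      have h2 := hnl p (S.ksub x hxY hp) h1
      push Not at h2
      obtain ⟨y, hy, hyp⟩ := h2
      exact ⟨y, hyp, (hleft y (hyp.le.trans hpx)).1 hy⟩)
  obtain ⟨b1, hb1, hb1x, hB1⟩ := half_gap' h hs (S.cc x hxY) hxA (by
      intro a ha hax
      obtain ⟨j, hj, haj⟩ := T.lim δ hδ.1 a ha
      obtain ⟨a', ha', ha'2, ha'3⟩ := T.f2b hj hx
      have h1 := ha'3 x (Nd_refl hx)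
      refine ⟨a', ha', ?_, h1⟩
      by_contra h2
      apply ha'2 a haj
      rw [uIcc_of_le h1.le]
      exact ⟨hax.le, not_lt.1 h2⟩) hb0 hb0x (by
      intro p hp hpx hpc
      have h1 := (hright p hpx).2 hpc
      have h2 := hng p (S.ksub x hxY hp) h1
      push Not at h2
      obtain ⟨y, hy, hyp⟩ := h2
      exact ⟨y, hyp, (hright y (hpx.trans hyp.le)).1 hy⟩)
  let U : Set X := Iio a1 ∪ ((⋃ u ∈ cls (A δ) x, ⋃ v ∈ cls (A δ) x, Ioo u v) ∪ Ioi b1)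
  have hUo : IsOpen U := by
    apply (h.io _).union
    apply IsOpen.union _ (h.oi _)
    apply isOpen_biUnion
    intro u _
    apply isOpen_biUnion
    intro v _
    exact (h.oi _).inter (h.io _)
  have hκU : κ x ⊆ U := by
    intro k hk
    by_cases h1 : ∃ a ∈ A δ, a < x ∧ k ≤ a
    · exact Or.inl (hA1 k hk h1)
    by_cases h2 : ∃ a ∈ A δ, x < a ∧ a ≤ k
    · exact Or.inr (Or.inr (hB1 k hk h2))
    right; left
    have hkc : k ∈ cls (A δ) x := by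
      rcases le_or_gt k x with h3 | h3
      · rw [hleft k h3]
        intro a ha h4 h5
        exact h1 ⟨a, ha, lt_of_le_of_ne h5 (fun h6 => hxA (h6 ▸ ha)), h4⟩
      · rw [hright k h3.le]
        intro a ha h4 h5
        exact h2 ⟨a, ha, lt_of_le_of_ne h5 (fun h6 => hxA (h6 ▸ ha)), h4⟩
    have h3 := hnl k (S.ksub x hxY hk) hkc
    have h4 := hng k (S.ksub x hxY hk) hkc
    push Not at h3 h4
    obtain ⟨u, hu, hu2⟩ := h3
    obtain ⟨v, hv, hv2⟩ := h4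
    simp only [mem_iUnion]
    exact ⟨u, hu, v, hv, hu2, hv2⟩
  obtain ⟨n, s, hsF, hs1, hs2⟩ := S.net x hxY U hUo hκU
  have hxs : x ∈ s := hs1 (S.mem x hxY)
  obtain ⟨j1, hj1, hj1'⟩ := T.lim δ hδ.1 a0 ha0
  obtain ⟨j2, hj2, hj2'⟩ := T.lim δ hδ.1 b0 hb0
  obtain ⟨j3, hj3, hj3'⟩ := T.lim δ hδ.1 a1 ha1
  obtain ⟨j4, hj4, hj4'⟩ := T.lim δ hδ.1 b1 hb1
  obtain ⟨j, hjδ, h1, h2, h3, h4⟩ : ∃ j < δ, j1 ≤ j ∧ j2 ≤ j ∧ j3 ≤ j ∧ j4 ≤ j :=
    ⟨max (max j1 j2) (max j3 j4), max_lt (max_lt hj1 hj2) (max_lt hj3 hj4),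
      (le_max_left _ _).trans (le_max_left _ _), (le_max_right _ _).trans (le_max_left _ _),
      (le_max_left _ _).trans (le_max_right _ _), (le_max_right _ _).trans (le_max_right _ _)⟩
  obtain ⟨y, ⟨hys, hy1, hy2⟩, hy3⟩ := hg j n s hsF a0 (T.mono _ _ h1 hj1') b0 (T.mono _ _ h2 hj2')
    a1 (T.mono _ _ h3 hj3') b1 (T.mono _ _ h4 hj4') (hc n) ⟨x, hxs, ha0x, hb0x⟩
    ⟨x, hxs, ha1x, hb1x⟩
  rcases hs2 hys with h5 | h5 | h5
  · exact lt_asymm h5 hy1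
  · simp only [mem_iUnion] at h5
    obtain ⟨u, hu, v, hv, huv⟩ := h5
    have hyc : y ∈ cls (A δ) x := (cls_conv _ _).out hu hv ⟨huv.1.le, huv.2.le⟩
    exact hy3 (Nd_anti (T.mono _ _ (hδ.2 j hjδ).le) (Nd_cls hx hyc))
  · exact lt_asymm h5 hy2

/-- Core theorem, contradiction part -/
theorem Tower.contra (T : Tower A) (h : IsGO X) (hs : HS X) (hL : IsLindelof (univ : Set X))
    (hN : ∀ i, (Nd (A i)).Nonempty) : False := by
  classical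
  have hxz : ∀ δ : I, ∃ x z, x ∈ Nd (A (sc δ)) ∧ z ∈ A (sc (sc δ)) ∧ z ∈ cls (A (sc δ)) x ∧
      (∃ a' ∈ cls (A δ) x, a' < z) ∧ (∃ b' ∈ cls (A δ) x, z < b') := by
    intro δ
    obtain ⟨x, hx⟩ := hN (sc (sc δ))
    obtain ⟨z, hz1, hz2, hz3⟩ := T.f2a (lt_sc (sc δ)) hx
    have hx' := Nd_anti (T.mono _ _ (lt_sc (sc δ)).le) hx
    obtain ⟨a', ha1, ha2, ha3⟩ := T.f2a (lt_sc δ) hx'
    obtain ⟨b', hb1, hb2, hb3⟩ := T.f2b (lt_sc δ) hx'
    exact ⟨x, z, hx', hz1, hz2, ⟨a', ha2, ha3 z hz2⟩, ⟨b', hb2, hb3 z hz2⟩⟩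
  choose x z hx hz1 hz2 hz3 hz4 using hxz
  have hxδ : ∀ δ, x δ ∈ Nd (A δ) := fun δ => Nd_anti (T.mono _ _ (lt_sc δ).le) (hx δ)
  have hzN : ∀ δ, z δ ∈ Nd (A (sc δ)) := fun δ => Nd_cls (hx δ) (hz2 δ)
  have hzc : ∀ δ, z δ ∈ cls (A δ) (x δ) := fun δ => cls_anti (T.mono _ _ (lt_sc δ).le) _ (hz2 δ)
  let E : Set X := {e | ∃ δ, Lim δ ∧ e ∈ cls (A δ) (x δ) ∧
    ((∀ y ∈ cls (A δ) (x δ), e ≤ y) ∨ (∀ y ∈ cls (A δ) (x δ), y ≤ e))}
  have hE : ∀ e δ, e ∈ cls (A δ) (x δ) →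
    ((∀ y ∈ cls (A δ) (x δ), e ≤ y) ∨ (∀ y ∈ cls (A δ) (x δ), y ≤ e)) →
      ∀ i, δ < i → e ∉ Nd (A i) := by
    intro e δ he hg i hi heN
    have h1 : e ∈ A i := T.great hi (Nd_cls (hxδ δ) he) (by rw [cls_eq he]; exact hg)
    exact Nd_notMem heN h1
  have hzE : ∀ δ, z δ ∉ E := by
    rintro δ ⟨δ', hδ', h1, h2⟩
    have h3 := hE _ δ' h1 h2
    have h4 : sc δ ≤ δ' := by
      by_contra h5
      exact h3 _ (not_le.1 h5) (hzN δ)
    have h5 : δ' ≤ sc δ := by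
      by_contra h5
      have h6 : sc (sc δ) ≤ δ' := sc_le (not_le.1 h5)
      exact Nd_notMem (Nd_cls (hxδ δ') h1) (T.mono _ _ h6 (hz1 δ))
    rw [le_antisymm h5 h4] at hδ'
    exact not_lim_sc δ hδ'
  -- Claim A
  have claimA : ∀ H : Set X, IsClosed H → H ⊆ E → ∃ i, ∀ y ∈ H, y ∉ Nd (A i) := by
    intro H hH hHE
    obtain ⟨F, κ, S⟩ := hs H
    obtain ⟨g, hg⟩ := T.closing h hs hL F
    by_contra hno
    push Not at hno
    choose w hwH hwN using hno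
    have hFc : ∀ n, {s ∈ F n | (s ∩ univ).Nonempty}.Countable := by
      intro n
      apply lind_countable (fun s : Set X => s) (F n) hL
      intro y _
      by_cases hy : y ∈ H
      · obtain ⟨V, hV, hVf⟩ := S.lf n y hy
        exact ⟨V, hV, hVf.countable⟩
      · refine ⟨Hᶜ, hH.isOpen_compl.mem_nhds hy, ?_⟩
        convert countable_empty (α := Set X)
        ext s
        simp only [mem_ofPred_eq, mem_empty_iff_false, iff_false, not_and]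
        rintro hs ⟨w, hw1, hw2⟩
        exact hw2 (S.sub n s hs hw1)
    have step : ∀ δ, Cl g δ → ∀ y ∈ H, y ∈ Nd (A δ) → y ∈ cls (A δ) (x δ) := by
      intro δ hδ y hyH hyN
      by_contra hyc
      obtain ⟨j, hj⟩ := hδ.1.1
      obtain ⟨a0, ha1, ha2, ha3⟩ := T.f2a hj hyN
      obtain ⟨b0, hb1, hb2, hb3⟩ := T.f2b hj hyN
      have hp : ∀ p ∈ H, p ∈ cls (A δ) y →
          ¬ ((∀ w ∈ cls (A δ) y, p ≤ w) ∨ (∀ w ∈ cls (A δ) y, w ≤ p)) := by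
        intro p hpH hpc hpg
        obtain ⟨δ', hδ', h1, h2⟩ := hHE hpH
        have hpN : p ∈ Nd (A δ) := Nd_cls hyN hpc
        have h3 : δ ≤ δ' := by
          by_contra h5
          exact hE p δ' h1 h2 δ (not_le.1 h5) hpN
        have h4 : δ' ≤ δ := by
          by_contra h5
          have h6 : p ∈ A δ' := T.great (not_le.1 h5) hpN (by rw [cls_eq hpc]; exact hpg)
          exact cls_notMem h1 h6
        have h5 := le_antisymm h4 h3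
        subst h5
        exact hyc (cls_trans h1 (cls_symm hpc))
      refine T.kprime h hs S hg hδ hyH hyN (fun p hp1 hp2 hp3 => hp p hp1 hp2 (Or.inl hp3))
        (fun p hp1 hp2 hp3 => hp p hp1 hp2 (Or.inr hp3)) ha1 hb1 (ha3 y (Nd_refl hyN))
        (hb3 y (Nd_refl hyN)) ?_
      intro n
      apply (hFc n).mono
      rintro s ⟨hs1, w, hw1, hw2⟩
      exact ⟨hs1, w, hw1, mem_univ _⟩
    apply T.chain h hs hL {δ | Cl g δ} (IsOm.unc_of_unbdd (fun i => by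
      obtain ⟨δ, h1, h2⟩ := exists_closed g i
      exact ⟨δ, h2, h1⟩)) w (fun i _ => hwN i)
    intro i hi j hj hij
    have h1 := step i hi (w i) (hwH i) (hwN i)
    have h2 := step i hi (w j) (hwH j) (Nd_anti (T.mono _ _ hij.le) (hwN j))
    exact cls_trans (cls_symm h1) h2
  -- Claim B
  obtain ⟨F, κ, S⟩ := hs Eᶜ
  let H : ℕ → Set X := fun n => {y | ∀ V ∈ 𝓝 y, ¬ {s ∈ F n | (s ∩ V).Nonempty}.Countable}
  have hHc : ∀ n, IsClosed (H n) := by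
    intro n
    rw [← isOpen_compl_iff, isOpen_iff_mem_nhds]
    intro y hy
    simp only [H, mem_compl_iff, mem_ofPred_eq, not_forall, not_not] at hy
    obtain ⟨V, hV, hVc⟩ := hy
    apply mem_of_superset (interior_mem_nhds.2 hV)
    intro w hw hwH
    exact hwH V (mem_interior_iff_mem_nhds.1 hw) hVc
  have hHE : ∀ n, H n ⊆ E := by
    intro n y hy
    by_contra hyE
    obtain ⟨V, hV, hVf⟩ := S.lf n y hyE
    exact hy V hV hVf.countable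
  choose i hi using fun n => claimA (H n) (hHc n) (hHE n)
  obtain ⟨i', hi'⟩ := IsOm.bdd (countable_range i)
  obtain ⟨g, hg⟩ := T.closing h hs hL F
  obtain ⟨δ, hδ1, hδ⟩ := exists_closed g i'
  have hzδ : z δ ∈ Nd (A δ) := Nd_cls (hxδ δ) (hzc δ)
  have hcl : cls (A δ) (z δ) = cls (A δ) (x δ) := cls_eq (hzc δ)
  obtain ⟨a0, ha1, ha2, ha3⟩ := T.f2a hδ1 hzδ
  obtain ⟨b0, hb1, hb2, hb3⟩ := T.f2b hδ1 hzδ
  refine T.kprime h hs S hg hδ (hzE δ) hzδ ?_ ?_ ha1 hb1 (ha3 _ (Nd_refl hzδ))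
    (hb3 _ (Nd_refl hzδ)) ?_
  · intro p hpE hpc hpl
    rw [hcl] at hpc hpl
    exact hpE ⟨δ, hδ.1, hpc, Or.inl hpl⟩
  · intro p hpE hpc hpl
    rw [hcl] at hpc hpl
    exact hpE ⟨δ, hδ.1, hpc, Or.inr hpl⟩
  · intro n
    have hJ : IsLindelof (Icc a0 b0) := by
      apply hL.of_isClosed_subset _ (subset_univ _)
      exact (h.cIci a0).inter (h.cIic b0)
    have h1 := lind_countable (fun s : Set X => s) (F n) hJ (by
      intro y hy
      have h2 : y ∈ cls (A i') (z δ) := (cls_conv _ _).out ha2 hb2 hy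
      have h3 : y ∈ Nd (A i') := Nd_cls (Nd_anti (T.mono _ _ hδ1.le) hzδ) h2
      have h4 : y ∉ H n := fun h5 => hi n y h5 (Nd_anti (T.mono _ _ (hi' _ ⟨n, rfl⟩).le) h3)
      simp only [H, mem_ofPred_eq, not_forall, not_not] at h4
      obtain ⟨V, hV, hVc⟩ := h4
      exact ⟨V, hV, hVc⟩)
    apply h1.mono
    rintro s ⟨hs1, w, hw1, hw2⟩
    exact ⟨hs1, w, hw1, hw2.1.le, hw2.2.le⟩

end tower

/-- Core theorem -/
theorem core (h : IsGO X) (hs : HS X) (hL : IsLindelof (univ : Set X)) :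
    ∃ A : Set X, A.Countable ∧ ∀ x y, x < y → ∃ a ∈ A, x ≤ a ∧ a ≤ y := by
  obtain ⟨A, T⟩ := exists_tower (I := Om) h hs hL
  by_contra hno
  apply T.contra h hs hL
  intro i
  by_contra hne
  apply hno
  refine ⟨A i, T.cnt i, ?_⟩
  intro x y hxy
  by_contra h1
  push Not at h1
  apply hne
  refine ⟨x, y, hxy.ne', ?_⟩
  intro a ha h2
  rw [uIcc_of_le hxy.le] at h2
  exact absurd (h1 a ha h2.1) (not_lt.2 h2.2)

end Pool.Agent.H893R2
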