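import Mathlib

/-!
# The Nagata–Smirnov metrization theorem (sufficiency)

A T₃ space with a σ-locally finite base is metrizable.
-/

set_option autoImplicit false
open Set Topology Filter TopologicalSpace
open scoped UniformConvergence

namespace Pool.Agent.H893R2.NS

variable {X : Type*} [TopologicalSpace X]

/-- uniform convergence structure on real functions is countably generated -/
instance (α : Type*) : IsCountablyGenerated (uniformity (α →ᵤ ℝ)) := by
  have h := UniformFun.hasBasis_uniformity_of_basis α ℝ Metric.uniformity_basis_dist_inv_nat_succ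
  exact HasCountableBasis.isCountablyGenerated ⟨h, Set.to_countable _⟩

theorem normal_of_base [RegularSpace X] (B : ℕ → Set (Set X)) (ho : ∀ n, ∀ s ∈ B n, IsOpen s)
    (hlf : ∀ n, LocallyFinite (fun s : B n => (s : Set X)))
    (hb : ∀ x, ∀ U ∈ 𝓝 x, ∃ n, ∃ s ∈ B n, x ∈ s ∧ s ⊆ U) : NormalSpace X := by
  have key : ∀ s t : Set X, IsClosed t → Disjoint s t → HasSeparatingCover s t := by
    intro s t ht hst
    refine ⟨fun n => ⋃ b : {b : B n // Disjoint (closure (b : Set X)) t}, (b.1 : Set X), ?_, ?_⟩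
    · intro x hx
      have hxt : tᶜ ∈ 𝓝 x := ht.isOpen_compl.mem_nhds (disjoint_left.1 hst hx)
      obtain ⟨V, hV, hVc, hVt⟩ := exists_mem_nhds_isClosed_subset hxt
      obtain ⟨n, b, hbB, hxb, hbV⟩ := hb x V hV
      refine mem_iUnion.2 ⟨n, mem_iUnion.2 ⟨⟨⟨b, hbB⟩, ?_⟩, hxb⟩⟩
      rw [disjoint_left]
      intro y hy hyt
      exact hVt (closure_minimal hbV hVc hy) hyt
    · intro n
      refine ⟨isOpen_iUnion (fun b => ho n _ b.1.2), ?_⟩
      have h1 : LocallyFinite (fun b : {b : B n // Disjoint (closure (b : Set X)) t} => (b.1 : Set X)) :=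
        (hlf n).comp_injective Subtype.val_injective
      rw [h1.closure_iUnion, disjoint_iUnion_left]
      exact fun b => b.2
  refine ⟨fun s t hs ht hst => ?_⟩
  exact hasSeparatingCovers_iff_separatedNhds.1 ⟨key s t ht hst, key t s hs hst.symm⟩

/-- Nagata–Smirnov, base indexed by `ℕ` -/
theorem nagata_smirnov_nat [T3Space X] (B : ℕ → Set (Set X)) (ho : ∀ n, ∀ s ∈ B n, IsOpen s)
    (hlf : ∀ n, LocallyFinite (fun s : B n => (s : Set X)))
    (hb : ∀ x, ∀ U ∈ 𝓝 x, ∃ n, ∃ s ∈ B n, x ∈ s ∧ s ⊆ U) : MetrizableSpace X := by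
  classical
  have hnormal : NormalSpace X := normal_of_base B ho hlf hb
  -- Urysohn functions
  have h1 : ∀ (n m : ℕ) (b : B n), ∃ f : X → ℝ, Continuous f ∧ (∀ x ∉ (b : Set X), f x = 0) ∧
      (∀ b' ∈ B m, closure b' ⊆ (b : Set X) → ∀ x ∈ b', f x = 1) := by
    intro n m b
    have hlf' : LocallyFinite (fun b' : {b' : B m // closure (b' : Set X) ⊆ (b : Set X)} => (b'.1 : Set X)) :=
      (hlf m).comp_injective Subtype.val_injective
    obtain ⟨f, hf0, hf1, -⟩ := exists_continuous_zero_one_of_isClosed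
      (s := (b : Set X)ᶜ)
      (t := closure (⋃ b' : {b' : B m // closure (b' : Set X) ⊆ (b : Set X)}, (b'.1 : Set X)))
      (ho n _ b.2).isClosed_compl isClosed_closure (by
        rw [hlf'.closure_iUnion, disjoint_iUnion_right]
        intro b'
        rw [disjoint_compl_left_iff_subset]
        exact b'.2)
    refine ⟨f, f.continuous, ?_, ?_⟩
    · intro x hx
      exact hf0 hx
    · intro b' hb' hcl x hx
      exact hf1 (subset_closure (mem_iUnion.2 ⟨⟨⟨b', hb'⟩, hcl⟩, hx⟩))
  choose f hfc hf0 hf1 using h1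
  let Ψ : X → ∀ p : ℕ × ℕ, (B p.1 →ᵤ ℝ) := fun x p => UniformFun.ofFun (fun b => f p.1 p.2 b x)
  have hΨc : Continuous Ψ := by
    apply continuous_pi
    intro p
    rw [continuous_iff_continuousAt]
    intro x
    rw [ContinuousAt, UniformFun.tendsto_iff_tendstoUniformly, Metric.tendstoUniformly_iff]
    intro ε hε
    obtain ⟨V, hV, hVf⟩ := hlf p.1 x
    have h2 : ∀ᶠ y in 𝓝 x, ∀ b ∈ {b : B p.1 | ((b : Set X) ∩ V).Nonempty},
        dist (f p.1 p.2 b x) (f p.1 p.2 b y) < ε := by
      rw [Filter.eventually_all_finite hVf]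
      intro b _
      have h3 : ContinuousAt (f p.1 p.2 b) x := (hfc p.1 p.2 b).continuousAt
      have h4 := Metric.tendsto_nhds.1 h3 ε hε
      filter_upwards [h4] with y hy
      rw [dist_comm]
      exact hy
    filter_upwards [h2, hV] with y hy hyV b
    by_cases hbV : ((b : Set X) ∩ V).Nonempty
    · exact hy b hbV
    · have h5 : x ∉ (b : Set X) := fun h => hbV ⟨x, h, mem_of_mem_nhds hV⟩
      have h6 : y ∉ (b : Set X) := fun h => hbV ⟨y, h, hyV⟩
      have h7 : f p.1 p.2 b x = f p.1 p.2 b y := by rw [hf0 _ _ _ _ h5, hf0 _ _ _ _ h6]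
      simp only [Function.comp_apply, Ψ, UniformFun.toFun_ofFun, h7, dist_self]
      exact hε
  have hind : IsInducing Ψ := by
    rw [isInducing_iff_nhds]
    intro x
    apply le_antisymm
    · exact map_le_iff_le_comap.1 hΨc.continuousAt
    · intro U hU
      obtain ⟨n, b, hbB, hxb, hbU⟩ := hb x U hU
      obtain ⟨W, hW, hWc, hWb⟩ := exists_mem_nhds_isClosed_subset ((ho n b hbB).mem_nhds hxb)
      obtain ⟨m, b', hb'B, hxb', hb'W⟩ := hb x W hW
      have hcl : closure b' ⊆ b := (closure_minimal hb'W hWc).trans hWb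
      have h2 : Continuous (fun φ : (∀ p : ℕ × ℕ, (B p.1 →ᵤ ℝ)) =>
          UniformFun.toFun (φ (n, m)) ⟨b, hbB⟩) := by
        have h3 := (UniformFun.uniformContinuous_eval ℝ (⟨b, hbB⟩ : B n)).continuous
        exact h3.comp (continuous_apply (n, m))
      have h3 : {φ : (∀ p : ℕ × ℕ, (B p.1 →ᵤ ℝ)) | (0:ℝ) < UniformFun.toFun (φ (n, m)) ⟨b, hbB⟩} ∈ 𝓝 (Ψ x) := by
        apply (isOpen_lt continuous_const h2).mem_nhds
        change (0:ℝ) < f n m ⟨b, hbB⟩ x
        rw [hf1 n m ⟨b, hbB⟩ b' hb'B hcl x hxb']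
        exact one_pos
      refine ⟨_, h3, ?_⟩
      intro y hy
      apply hbU
      by_contra hyb
      have h4 : (0:ℝ) < f n m ⟨b, hbB⟩ y := hy
      rw [hf0 n m ⟨b, hbB⟩ y hyb] at h4
      exact lt_irrefl _ h4
  have := hind.pseudoMetrizableSpace
  infer_instance

/-- Nagata–Smirnov, base indexed by a countable type -/
theorem nagata_smirnov [T3Space X] {ι : Type*} [Countable ι] (B : ι → Set (Set X))
    (ho : ∀ n, ∀ s ∈ B n, IsOpen s)
    (hlf : ∀ n, ∀ x, ∃ V ∈ 𝓝 x, {s ∈ B n | (s ∩ V).Nonempty}.Finite)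
    (hb : ∀ x, ∀ U ∈ 𝓝 x, ∃ n, ∃ s ∈ B n, x ∈ s ∧ s ⊆ U) : MetrizableSpace X := by
  classical
  rcases isEmpty_or_nonempty ι with hι | hι
  · have : IsEmpty X := by
      constructor
      intro x
      obtain ⟨n, -⟩ := hb x univ univ_mem
      exact hι.elim n
    have : DiscreteTopology X := inferInstance
    infer_instance
  · obtain ⟨e, he⟩ := exists_surjective_nat ι
    apply nagata_smirnov_nat (fun n => B (e n)) (fun n => ho (e n))
    · intro n x
      obtain ⟨V, hV, hVf⟩ := hlf (e n) x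
      refine ⟨V, hV, ?_⟩
      apply Set.Finite.of_injOn (f := fun s : B (e n) => (s : Set X)) _ _ hVf
      · rintro s hs
        exact ⟨s.2, hs⟩
      · exact Subtype.val_injective.injOn
    · intro x U hU
      obtain ⟨i, s, hs⟩ := hb x U hU
      obtain ⟨n, rfl⟩ := he i
      exact ⟨n, s, hs⟩

end Pool.Agent.H893R2.NS
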