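import Pool.Agent.H893R2.GO4
import Pool.Agent.H893R2.NagataSmirnov

set_option autoImplicit false
set_option linter.unusedSectionVars false
open Set Topology Filter

namespace Pool.Agent.H893R2

variable {X : Type*} [LinearOrder X] [TopologicalSpace X]

theorem IsGO.t2 (h : IsGO X) : T2Space X := by
  have key : ∀ x y : X, x < y → ∃ u v : Set X, IsOpen u ∧ IsOpen v ∧ x ∈ u ∧ y ∈ v ∧ Disjoint u v := by
    intro x y hxy
    by_cases hz : ∃ z, x < z ∧ z < y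
    · obtain ⟨z, h1, h2⟩ := hz
      refine ⟨Iio z, Ioi z, h.io z, h.oi z, h1, h2, ?_⟩
      rw [disjoint_left]
      intro w hw hw2
      exact lt_asymm hw hw2
    · refine ⟨Iio y, Ioi x, h.io y, h.oi x, hxy, hxy, ?_⟩
      rw [disjoint_left]
      intro w hw hw2
      exact hz ⟨w, hw2, hw⟩
  constructor
  intro x y hxy
  rcases lt_or_gt_of_ne hxy with h1 | h1
  · exact key x y h1
  · obtain ⟨u, v, h2, h3, h4, h5, h6⟩ := key y x h1
    exact ⟨v, u, h3, h2, h5, h4, h6.symm⟩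

/-- if `x` is not isolated from the right, there are points above `x` in each neighbourhood -/
theorem IsGO.right_pt (h : IsGO X) {x : X} (hx : ¬ IsOpen (Iic x)) {V : Set X} (hV : V ∈ 𝓝 x) :
    ∃ y ∈ V, x < y := by
  by_contra hno
  push Not at hno
  apply hx
  have : Iic x = Iio x ∪ interior V := by
    ext y
    constructor
    · intro hy
      rcases eq_or_lt_of_le (show y ≤ x from hy) with h1 | h1
      · right
        rw [h1]
        exact mem_interior_iff_mem_nhds.2 hV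
      · exact Or.inl h1
    · rintro (hy | hy)
      · exact le_of_lt hy
      · exact hno y (interior_subset hy)
  rw [this]
  exact (h.io x).union isOpen_interior

theorem IsGO.left_pt (h : IsGO X) {x : X} (hx : ¬ IsOpen (Ici x)) {V : Set X} (hV : V ∈ 𝓝 x) :
    ∃ y ∈ V, y < x :=
  IsGO.right_pt (X := Xᵒᵈ) h.dual hx hV

theorem IsGO.right_dense (h : IsGO X) {x : X} (hx : ¬ IsOpen (Iic x)) {y : X} (hxy : x < y) :
    ∃ z, x < z ∧ z < y := by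
  obtain ⟨z, hz, hz2⟩ := h.right_pt hx ((h.io y).mem_nhds hxy)
  exact ⟨z, hz2, hz⟩

theorem IsGO.left_dense (h : IsGO X) {x : X} (hx : ¬ IsOpen (Ici x)) {y : X} (hxy : y < x) :
    ∃ z, z < x ∧ y < z :=
  IsGO.right_dense (X := Xᵒᵈ) h.dual hx hxy

theorem IsGO.regular (h : IsGO X) : RegularSpace X := by
  have hr : ∀ x : X, ∀ V ∈ 𝓝 x, ∃ y ∈ V, x ≤ y ∧ Iic y ∈ 𝓝 x := by
    intro x V hV
    by_cases hx : IsOpen (Iic x)
    · exact ⟨x, mem_of_mem_nhds hV, le_rfl, hx.mem_nhds self_mem_Iic⟩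
    · obtain ⟨y, hy, hxy⟩ := h.right_pt hx hV
      exact ⟨y, hy, hxy.le, mem_of_superset ((h.io y).mem_nhds hxy) Iio_subset_Iic_self⟩
  have hl : ∀ x : X, ∀ V ∈ 𝓝 x, ∃ y ∈ V, y ≤ x ∧ Ici y ∈ 𝓝 x := by
    intro x V hV
    by_cases hx : IsOpen (Ici x)
    · exact ⟨x, mem_of_mem_nhds hV, le_rfl, hx.mem_nhds self_mem_Ici⟩
    · obtain ⟨y, hy, hxy⟩ := h.left_pt hx hV
      exact ⟨y, hy, hxy.le, mem_of_superset ((h.oi y).mem_nhds hxy) Ioi_subset_Ici_self⟩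
  apply RegularSpace.of_exists_mem_nhds_isClosed_subset
  intro x s hs
  obtain ⟨V, hVs, hVo, hVc, hVm⟩ := h.bas x s hs
  obtain ⟨y, hy, hxy, hy2⟩ := hr x V (hVo.mem_nhds hVm)
  obtain ⟨z, hz, hxz, hz2⟩ := hl x V (hVo.mem_nhds hVm)
  exact ⟨Ici z ∩ Iic y, inter_mem hz2 hy2, (h.cIci z).inter (h.cIic y),
    (hVc.out hz hy).trans hVs⟩

theorem LFs.union {A B : Set X} (hA : LFs A) (hB : LFs B) : LFs (A ∪ B) := by
  intro x
  obtain ⟨V, hV, hVf⟩ := hA x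
  obtain ⟨W, hW, hWf⟩ := hB x
  refine ⟨V ∩ W, inter_mem hV hW, (hVf.union hWf).subset ?_⟩
  rintro y ⟨hy | hy, hy2, hy3⟩
  · exact Or.inl ⟨hy, hy2⟩
  · exact Or.inr ⟨hy, hy3⟩

theorem LFs.biUnion {D : ℕ → Set X} (hD : ∀ n, LFs (D n)) (m : ℕ) : LFs (⋃ q ≤ m, D q) := by
  induction m with
  | zero =>
    have : (⋃ q ≤ 0, D q) = D 0 := by
      ext x
      simp
    rw [this]
    exact hD 0
  | succ m ih =>
    have : (⋃ q ≤ m + 1, D q) = (⋃ q ≤ m, D q) ∪ D (m + 1) := by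
      ext x
      simp only [mem_iUnion, mem_union, exists_prop]
      constructor
      · rintro ⟨q, hq, hx⟩
        rcases Nat.lt_or_ge q (m+1) with h1 | h1
        · exact Or.inl ⟨q, by omega, hx⟩
        · have : q = m + 1 := by omega
          exact Or.inr (this ▸ hx)
      · rintro (⟨q, hq, hx⟩ | hx)
        · exact ⟨q, by omega, hx⟩
        · exact ⟨m+1, le_rfl, hx⟩
    rw [this]
    exact ih.union (hD _)

/-- isolating neighbourhoods for locally finite sets -/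
theorem LFs.iso (h : IsGO X) {D : Set X} (hD : LFs D) (x : X) :
    ∃ V : Set X, IsOpen V ∧ V.OrdConnected ∧ x ∈ V ∧ ∀ d ∈ D, d ∈ V → d = x := by
  have := h.t2
  obtain ⟨V, hV, hVf⟩ := hD x
  have h1 : ((D ∩ V) \ {x})ᶜ ∈ 𝓝 x := by
    apply (hVf.subset sdiff_subset).isClosed.isOpen_compl.mem_nhds
    simp
  obtain ⟨W, hWV, hWo, hWc, hWm⟩ := h.bas x _ (inter_mem hV h1)
  refine ⟨W, hWo, hWc, hWm, ?_⟩
  intro d hd hdW
  by_contra h2
  exact (hWV hdW).2 ⟨⟨hd, (hWV hdW).1⟩, h2⟩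

/-- GO structure on subspaces -/
theorem IsGO.sub (h : IsGO X) (J : Set X) : IsGO ↥J := by
  refine ⟨fun a => (h.oi a.1).preimage continuous_subtype_val,
    fun a => (h.io a.1).preimage continuous_subtype_val, ?_⟩
  intro x U hU
  rw [nhds_subtype_eq_comap, mem_comap] at hU
  obtain ⟨U', hU', hUU⟩ := hU
  obtain ⟨V, hVU, hVo, hVc, hVm⟩ := h.bas _ _ hU'
  refine ⟨Subtype.val ⁻¹' V, fun y hy => hUU (hVU hy), hVo.preimage continuous_subtype_val, ?_, hVm⟩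
  exact ⟨fun a ha b hb c hc => hVc.out ha hb ⟨hc.1, hc.2⟩⟩

omit [LinearOrder X] in
/-- hereditarily Σ passes to subspaces -/
theorem HS.sub (hs : HS X) (J : Set X) : HS ↥J := by
  intro Z
  obtain ⟨F, κ, S⟩ := hs (Subtype.val '' Z)
  have hZ : ∀ z ∈ Z, (z : X) ∈ Subtype.val '' Z := fun z hz => ⟨z, hz, rfl⟩
  refine ⟨fun n => (fun s => Subtype.val ⁻¹' s) '' F n, fun z => Subtype.val ⁻¹' κ z, ?_⟩
  constructor
  · rintro n _ ⟨s, hs, rfl⟩ x hx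
    obtain ⟨y, hy, hyx⟩ := S.sub n s hs hx
    rwa [Subtype.ext hyx] at hy
  · intro n z hz
    obtain ⟨V, hV, hVf⟩ := S.lf n z (hZ z hz)
    refine ⟨Subtype.val ⁻¹' V, continuous_subtype_val.continuousAt hV, ?_⟩
    apply (hVf.image (fun s => (Subtype.val ⁻¹' s : Set ↥J))).subset
    rintro _ ⟨⟨s, hs, rfl⟩, w, hw1, hw2⟩
    exact ⟨s, ⟨hs, w, hw1, hw2⟩, rfl⟩
  · intro z hz
    exact S.mem z (hZ z hz)
  · intro z hz x hx
    obtain ⟨y, hy, hyx⟩ := S.ksub z (hZ z hz) hx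
    rwa [Subtype.ext hyx] at hy
  · intro z hz u hu hcov
    have h1 : ∀ n, ∃ v : Set X, IsOpen v ∧ Subtype.val ⁻¹' v = u n := fun n => isOpen_induced_iff.1 (hu n)
    choose v hv hv2 using h1
    obtain ⟨t, ht⟩ := S.cc z (hZ z hz) v hv (by
      intro x hx
      obtain ⟨y, hy, rfl⟩ := S.ksub z (hZ z hz) hx
      have := hcov (show y ∈ Subtype.val ⁻¹' κ z from hx)
      simp only [mem_iUnion] at this ⊢
      obtain ⟨n, hn⟩ := this
      rw [← hv2] at hn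
      exact ⟨n, hn⟩)
    refine ⟨t, ?_⟩
    intro x hx
    have := ht (show (x : X) ∈ κ z from hx)
    simp only [mem_iUnion] at this ⊢
    obtain ⟨n, hn, hn2⟩ := this
    refine ⟨n, hn, ?_⟩
    rw [← hv2]
    exact hn2
  · intro z hz U hU hzU
    obtain ⟨V, hV, rfl⟩ := isOpen_induced_iff.1 hU
    obtain ⟨n, s, hs, hs1, hs2⟩ := S.net z (hZ z hz) V hV (by
      intro x hx
      obtain ⟨y, hy, rfl⟩ := S.ksub z (hZ z hz) hx
      exact hzU (show y ∈ Subtype.val ⁻¹' κ z from hx))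
    exact ⟨n, _, ⟨s, hs, rfl⟩, fun x hx => hs1 hx, fun x hx => hs2 hx⟩

/-- the family of nondegenerate classes -/
theorem fam_classes (D : Set X) : ∃ P Q : {C : Set X // ∃ x ∈ Nd D, C = cls D x} → X,
    Fam D (fun C : {C : Set X // ∃ x ∈ Nd D, C = cls D x} => C.1) P Q := by
  have hPQ : ∀ C : {C : Set X // ∃ x ∈ Nd D, C = cls D x}, ∃ p q : X, p ∈ C.1 ∧ q ∈ C.1 ∧ p < q := by
    rintro ⟨_, x, hx, rfl⟩
    have hx1 := Nd_refl hx
    obtain ⟨y, hy, hy2⟩ := hx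
    rcases lt_or_gt_of_ne hy with h1 | h1
    · exact ⟨y, x, hy2, hx1, h1⟩
    · exact ⟨x, y, hx1, hy2, h1⟩
  choose P Q hP hQ hPQ using hPQ
  refine ⟨P, Q, ?_, ?_, hP, hQ, hPQ, ?_, ?_⟩
  · rintro ⟨_, x, hx, rfl⟩ ⟨_, y, hy, rfl⟩ z hz1 hz2
    apply Subtype.ext
    dsimp only at hz1 hz2 ⊢
    rw [← cls_eq hz1, cls_eq hz2]
  · rintro ⟨_, x, hx, rfl⟩
    exact cls_conv D x
  · rintro ⟨_, w, hw, rfl⟩ x hx y hy hxy
    dsimp only at hx hy
    have h1 : y ∉ cls D x := fun h2 => hy (cls_trans hx h2)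
    simp only [cls, mem_ofPred_eq, not_forall, not_not] at h1
    obtain ⟨a, ha, ha2⟩ := h1
    rw [uIcc_of_le hxy.le] at ha2
    exact ⟨a, ha, lt_of_le_of_ne ha2.1 (fun h2 => cls_notMem hx (h2 ▸ ha)), ha2.2⟩
  · rintro ⟨_, w, hw, rfl⟩ x hx y hy hxy
    dsimp only at hx hy
    have h1 : y ∉ cls D x := fun h2 => hy (cls_trans hx h2)
    simp only [cls, mem_ofPred_eq, not_forall, not_not] at h1
    obtain ⟨a, ha, ha2⟩ := h1
    rw [uIcc_of_ge hxy.le] at ha2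
    exact ⟨a, ha, lt_of_le_of_ne ha2.2 (fun h2 => cls_notMem hx (h2 ▸ ha)), ha2.1⟩

/-- the set `D¹` -/
theorem exists_D1all (h : IsGO X) (hs : HS X) : ∃ D : ℕ → Set X, (∀ m, LFs (D m)) ∧
    ∀ x, x ∉ ⋃ m, D m → ∃ A : Set X, A.Countable ∧
      ∀ y ∈ cls (⋃ m, D m) x, ∀ z ∈ cls (⋃ m, D m) x, y < z → ∃ a ∈ A, y ≤ a ∧ a ≤ z := by
  classical
  obtain ⟨F, κ, S⟩ := hs univ
  choose D1 hD1 hD1' using fun n => exists_D1 h hs (F := F n) (fun z => S.lf n z (mem_univ _))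
  choose D2 hD2 hD2' using fun n => exists_D1' h hs (F := F n) (fun z => S.lf n z (mem_univ _))
  refine ⟨fun n => D1 n ∪ D2 n, fun n => (hD1 n).union (hD2 n), ?_⟩
  intro x _
  choose a ha hxa hac using fun n => hD1' n x
  choose b hb hbx hbc using fun n => hD2' n x
  let J : Set X := ⋂ n, Icc (b n) (a n)
  have hJ : IsClosed J := isClosed_iInter (fun n => (h.cIci _).inter (h.cIic _))
  have hJc : ∀ n, {s ∈ F n | (s ∩ J).Nonempty}.Countable := by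
    intro n
    apply ((hac n).union (hbc n)).mono
    rintro s ⟨hs, w, hw1, hw2⟩
    have hw3 : w ∈ Icc (b n) (a n) := mem_iInter.1 hw2 n
    rcases le_total x w with h1 | h1
    · exact Or.inl ⟨hs, w, hw1, h1, hw3.2⟩
    · exact Or.inr ⟨hs, w, hw1, hw3.1, h1⟩
  have hJL : IsLindelof J := S.lindelof h hs hJ hJc
  have hJL2 : IsLindelof (univ : Set ↥J) := isLindelof_iff_isLindelof_univ.1 hJL
  obtain ⟨A, hA, hA2⟩ := core (h.sub J) (hs.sub J) hJL2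
  refine ⟨Subtype.val '' A, hA.image _, ?_⟩
  have hcJ : cls (⋃ m, D1 m ∪ D2 m) x ⊆ J := by
    intro y hy
    refine mem_iInter.2 (fun n => ⟨?_, ?_⟩)
    · by_contra h1
      apply hy (b n) (mem_iUnion.2 ⟨n, Or.inr (hb n)⟩)
      rw [uIcc_of_ge ((not_le.1 h1).le.trans (hbx n))]
      exact ⟨(not_le.1 h1).le, hbx n⟩
    · by_contra h1
      apply hy (a n) (mem_iUnion.2 ⟨n, Or.inl (ha n)⟩)
      rw [uIcc_of_le ((hxa n).trans (not_le.1 h1).le)]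
      exact ⟨hxa n, (not_le.1 h1).le⟩
  intro y hy z hz hyz
  obtain ⟨w, hw, hw1, hw2⟩ := hA2 ⟨y, hcJ hy⟩ ⟨z, hcJ hz⟩ hyz
  exact ⟨w, ⟨w, hw, rfl⟩, hw1, hw2⟩

/-- separating σ-locally finite set -/
theorem exists_sep (h : IsGO X) (hs : HS X) : ∃ D : ℕ → Set X, (∀ m, LFs (D m)) ∧
    ∀ x y, x < y → ∃ m, ∃ d ∈ D m, x ≤ d ∧ d ≤ y := by
  classical
  obtain ⟨D, hD, hD2⟩ := exists_D1all h hs
  obtain ⟨P, Q, hF⟩ := fam_classes (⋃ m, D m)
  obtain ⟨k, hk⟩ := hF.sigmaLF h hs D (fun d hd => mem_iUnion.1 hd) hD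
  have hA : ∀ C : {C : Set X // ∃ x ∈ Nd (⋃ m, D m), C = cls (⋃ m, D m) x}, ∃ A : Set X,
      A.Countable ∧ ∀ y ∈ C.1, ∀ z ∈ C.1, y < z → ∃ a ∈ A, y ≤ a ∧ a ≤ z := by
    rintro ⟨_, x, hx, rfl⟩
    exact hD2 x (Nd_notMem hx)
  choose A hAc hA using hA
  choose f hf using fun C => Set.countable_iff_exists_injOn.1 (hAc C)
  let D' : ℕ → Set X := fun q => {a | ∃ C, k C = (Nat.unpair q).1 ∧ a ∈ C.1 ∧ a ∈ A C ∧
    f C a = (Nat.unpair q).2}
  have hD' : ∀ q, LFs (D' q) := by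
    intro q z
    obtain ⟨V, hV, hVf⟩ := hk (Nat.unpair q).1 z
    refine ⟨V, hV, ?_⟩
    have h1 : (⋃ C ∈ {C : {C : Set X // ∃ x ∈ Nd (⋃ m, D m), C = cls (⋃ m, D m) x} |
        k C = (Nat.unpair q).1 ∧ (C.1 ∩ V).Nonempty}, {a | a ∈ A C ∧ f C a = (Nat.unpair q).2}).Finite := by
      apply hVf.biUnion
      intro C _
      apply Set.Subsingleton.finite
      rintro a ⟨ha, ha2⟩ b ⟨hb, hb2⟩
      exact hf C ha hb (ha2.trans hb2.symm)
    apply h1.subset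
    rintro a ⟨⟨C, hC1, hC2, hC3, hC4⟩, haV⟩
    simp only [mem_iUnion]
    exact ⟨C, ⟨hC1, a, hC2, haV⟩, hC3, hC4⟩
  refine ⟨fun q => D q ∪ D' q, fun q => (hD q).union (hD' q), ?_⟩
  intro x y hxy
  by_cases h1 : y ∈ cls (⋃ m, D m) x
  · have hx : x ∈ Nd (⋃ m, D m) := ⟨y, hxy.ne', h1⟩
    obtain ⟨a, ha, hxa, hay⟩ := hA ⟨_, x, hx, rfl⟩ x (Nd_refl hx) y h1 hxy
    refine ⟨Nat.pair (k ⟨_, x, hx, rfl⟩) (f ⟨_, x, hx, rfl⟩ a), a, Or.inr ?_, hxa, hay⟩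
    refine ⟨⟨_, x, hx, rfl⟩, by simp, ?_, ha, by simp⟩
    exact (cls_conv _ _).out (Nd_refl hx) h1 ⟨hxa, hay⟩
  · simp only [cls, mem_ofPred_eq, not_forall, not_not] at h1
    obtain ⟨a, ha, ha2⟩ := h1
    rw [uIcc_of_le hxy.le] at ha2
    obtain ⟨m, hm⟩ := mem_iUnion.1 ha
    exact ⟨m, a, Or.inl hm, ha2⟩

/-- the final σ-locally finite set -/
theorem exists_D (h : IsGO X) (hs : HS X) : ∃ D : ℕ → Set X, (∀ m, LFs (D m)) ∧
    (∀ m n, m ≤ n → D m ⊆ D n) ∧ (∀ x y, x < y → ∃ m, ∃ d ∈ D m, x ≤ d ∧ d ≤ y) ∧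
    (∀ x, (∀ m, x ∉ D m) → ¬ IsOpen (Iic x) ∧ ¬ IsOpen (Ici x)) := by
  classical
  obtain ⟨D, hD, hsep⟩ := exists_sep h hs
  obtain ⟨k1, hk1⟩ := oneSided_sigmaLF h hs D hD hsep
  obtain ⟨k2, hk2⟩ := oneSided_sigmaLF (X := Xᵒᵈ) h.dual hs.dual D hD (by
    intro x y hxy
    obtain ⟨m, d, hd, h1, h2⟩ := hsep y x hxy
    exact ⟨m, d, hd, h2, h1⟩)
  let D' : ℕ → Set X := fun q => D q ∪ ({x | ((∀ m, x ∉ D m) ∧ IsOpen (Iic x)) ∧ k1 x = q} ∪
    {x | ((∀ m, x ∉ D m) ∧ IsOpen (Ici x)) ∧ k2 x = q})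
  have hD' : ∀ q, LFs (D' q) := fun q => (hD q).union ((hk1 q).union (hk2 q))
  refine ⟨fun m => ⋃ q ≤ m, D' q, fun m => LFs.biUnion hD' m, ?_, ?_, ?_⟩
  · intro m n hmn x hx
    simp only [mem_iUnion] at hx ⊢
    obtain ⟨q, hq, hx⟩ := hx
    exact ⟨q, hq.trans hmn, hx⟩
  · intro x y hxy
    obtain ⟨m, d, hd, h1⟩ := hsep x y hxy
    refine ⟨m, d, ?_, h1⟩
    simp only [mem_iUnion]
    exact ⟨m, le_rfl, Or.inl hd⟩
  · intro x hx
    have hx' : ∀ q, x ∉ D' q := by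
      intro q hq
      apply hx q
      simp only [mem_iUnion]
      exact ⟨q, le_rfl, hq⟩
    have hxD : ∀ m, x ∉ D m := fun m hm => hx' m (Or.inl hm)
    exact ⟨fun ho => hx' (k1 x) (Or.inr (Or.inl ⟨⟨hxD, ho⟩, rfl⟩)),
      fun ho => hx' (k2 x) (Or.inr (Or.inr ⟨⟨hxD, ho⟩, rfl⟩))⟩

/-- countable right neighbourhood systems -/
theorem right_base (h : IsGO X) {D : ℕ → Set X} (hD : ∀ m, LFs (D m))
    (hsep : ∀ x y, x < y → ∃ m, ∃ d ∈ D m, x ≤ d ∧ d ≤ y) (x : X) :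
    ∃ R : ℕ → Set X, (∀ k, IsOpen (R k) ∧ x ∈ R k) ∧ ∀ V ∈ 𝓝 x, ∃ k, ∀ y ∈ R k, x ≤ y → y ∈ V := by
  by_cases hx : IsOpen (Iic x)
  · refine ⟨fun _ => Iic x, fun _ => ⟨hx, self_mem_Iic⟩, ?_⟩
    intro V hV
    refine ⟨0, fun y hy hxy => ?_⟩
    rw [← le_antisymm hxy hy]
    exact mem_of_mem_nhds hV
  · choose W hWo hWc hWm hW using fun m => (hD m).iso h x
    choose w hw hxw using fun m => h.right_pt hx ((hWo m).mem_nhds (hWm m))
    refine ⟨fun m => Iio (w m), fun m => ⟨h.io _, hxw m⟩, ?_⟩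
    intro V hV
    obtain ⟨V', hVV, hVo, hVc, hVm⟩ := h.bas x V hV
    obtain ⟨y, hy, hxy⟩ := h.right_pt hx (hVo.mem_nhds hVm)
    obtain ⟨y', hxy', hyy'⟩ := h.right_dense hx hxy
    obtain ⟨m, e, he, h1, h2⟩ := hsep y' y hyy'
    refine ⟨m, fun z hz hxz => hVV (hVc.out hVm hy ⟨hxz, ?_⟩)⟩
    have h3 : w m < e := by
      by_contra h4
      have h5 : e ∈ W m := (hWc m).out (hWm m) (hw m) ⟨hxy'.le.trans h1, not_lt.1 h4⟩
      exact absurd (hW m e he h5) (hxy'.trans_le h1).ne'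
    exact (lt_trans hz h3).le.trans h2

theorem left_base (h : IsGO X) {D : ℕ → Set X} (hD : ∀ m, LFs (D m))
    (hsep : ∀ x y, x < y → ∃ m, ∃ d ∈ D m, x ≤ d ∧ d ≤ y) (x : X) :
    ∃ R : ℕ → Set X, (∀ k, IsOpen (R k) ∧ x ∈ R k) ∧ ∀ V ∈ 𝓝 x, ∃ k, ∀ y ∈ R k, y ≤ x → y ∈ V :=
  right_base (X := Xᵒᵈ) h.dual hD (by
    intro x y hxy
    obtain ⟨m, d, hd, h1, h2⟩ := hsep y x hxy
    exact ⟨m, d, hd, h2, h1⟩) x

/-- components form a locally finite family of open sets -/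
theorem cls_open (h : IsGO X) {D : Set X} (hD : LFs D) (x : X) : IsOpen (cls D x) := by
  rw [isOpen_iff_mem_nhds]
  intro y hy
  obtain ⟨V, hVo, hVc, hVm, hV⟩ := hD.iso h y
  apply mem_of_superset (hVo.mem_nhds hVm)
  intro w hw
  apply cls_trans hy
  intro a ha haw
  have h1 : a ∈ V := hVc.uIcc_subset hVm hw haw
  exact cls_notMem hy (hV a ha h1 ▸ ha)

theorem cls_lf (h : IsGO X) {D : Set X} (hD : LFs D) (z : X) :
    ∃ V ∈ 𝓝 z, {s | (∃ x, x ∉ D ∧ s = cls D x) ∧ (s ∩ V).Nonempty}.Finite := by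
  obtain ⟨V, hVo, hVc, hVm, hV⟩ := hD.iso h z
  refine ⟨V, hVo.mem_nhds hVm, ?_⟩
  have h1 : {s | (∃ x, x ∉ D ∧ s = cls D x) ∧ (s ∩ V).Nonempty} ⊆
      {s | (∃ x, x ∉ D ∧ s = cls D x) ∧ z ∈ s} ∪
      ({s | (∃ x, x ∉ D ∧ s = cls D x) ∧ ∃ w ∈ V, w < z ∧ w ∈ s} ∪
      {s | (∃ x, x ∉ D ∧ s = cls D x) ∧ ∃ w ∈ V, z < w ∧ w ∈ s}) := by
    rintro s ⟨hs, w, hw1, hw2⟩
    rcases lt_trichotomy w z with h2 | h2 | h2
    · exact Or.inr (Or.inl ⟨hs, w, hw2, h2, hw1⟩)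
    · exact Or.inl ⟨hs, h2 ▸ hw1⟩
    · exact Or.inr (Or.inr ⟨hs, w, hw2, h2, hw1⟩)
  apply Set.Finite.subset _ h1
  apply Set.Finite.union
  · apply Set.Subsingleton.finite
    rintro _ ⟨⟨x, -, rfl⟩, hx⟩ _ ⟨⟨y, -, rfl⟩, hy⟩
    rw [← cls_eq hx, cls_eq hy]
  apply Set.Finite.union
  · apply Set.Subsingleton.finite
    rintro _ ⟨⟨x, -, rfl⟩, w, hwV, hwz, hw⟩ _ ⟨⟨y, -, rfl⟩, w', hwV', hwz', hw'⟩
    rw [← cls_eq hw, ← cls_eq hw']
    apply (cls_eq _).symm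
    intro a ha haw
    have h2 : a ∈ V := hVc.uIcc_subset hwV hwV' haw
    have h3 := hV a ha h2
    have h4 : a ≤ max w w' := haw.2
    rw [h3] at h4
    exact absurd h4 (not_le.2 (max_lt hwz hwz'))
  · apply Set.Subsingleton.finite
    rintro _ ⟨⟨x, -, rfl⟩, w, hwV, hwz, hw⟩ _ ⟨⟨y, -, rfl⟩, w', hwV', hwz', hw'⟩
    rw [← cls_eq hw, ← cls_eq hw']
    apply (cls_eq _).symm
    intro a ha haw
    have h2 : a ∈ V := hVc.uIcc_subset hwV hwV' haw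
    have h3 := hV a ha h2
    have h4 : min w w' ≤ a := haw.1
    rw [h3] at h4
    exact absurd h4 (not_le.2 (lt_min hwz hwz'))

/-- Metrization -/
theorem metrizable (h : IsGO X) (hs : HS X) : TopologicalSpace.MetrizableSpace X := by
  classical
  have hT2 := h.t2
  have hreg := h.regular
  have hT3 : T3Space X := inferInstance
  obtain ⟨D, hD, hmono, hsep, hone⟩ := exists_D h hs
  choose W hWo hWc hWm hW using fun m x => (hD m).iso h x
  choose R hR hR2 using right_base h hD hsep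
  choose L hL hL2 using left_base h hD hsep
  apply NS.nagata_smirnov (ι := ℕ ⊕ (ℕ × ℕ × ℕ)) (fun q => match q with
    | Sum.inl m => {s | ∃ x, x ∉ D m ∧ s = cls (D m) x}
    | Sum.inr (m, k, l) => {s | ∃ d ∈ D m, s = R d k ∩ L d l ∩ W m d})
  · rintro (m | ⟨m, k, l⟩) s
    · rintro ⟨x, -, rfl⟩
      exact cls_open h (hD m) x
    · rintro ⟨d, -, rfl⟩
      exact ((hR d k).1.inter (hL d l).1).inter (hWo m d)
  · rintro (m | ⟨m, k, l⟩) z
    · exact cls_lf h (hD m) z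
    · refine ⟨W m z, (hWo m z).mem_nhds (hWm m z), ?_⟩
      have h1 : {s | (∃ d ∈ D m, s = R d k ∩ L d l ∩ W m d) ∧ (s ∩ W m z).Nonempty} ⊆
          (fun d => R d k ∩ L d l ∩ W m d) '' ({z} ∪
            ({d | d ∈ D m ∧ d < z ∧ (W m d ∩ W m z).Nonempty} ∪
             {d | d ∈ D m ∧ z < d ∧ (W m d ∩ W m z).Nonempty})) := by
        rintro _ ⟨⟨d, hd, rfl⟩, w, ⟨-, hw1⟩, hw2⟩
        refine ⟨d, ?_, rfl⟩
        rcases lt_trichotomy d z with h2 | h2 | h2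
        · exact Or.inr (Or.inl ⟨hd, h2, w, hw1, hw2⟩)
        · exact Or.inl h2
        · exact Or.inr (Or.inr ⟨hd, h2, w, hw1, hw2⟩)
      apply Set.Finite.subset _ h1
      apply Set.Finite.image
      apply (finite_singleton z).union
      apply Set.Finite.union
      · apply Set.Subsingleton.finite
        have h2 : ∀ d d', d ∈ D m → d' ∈ D m → d' < z → (W m d ∩ W m z).Nonempty → d < d' → False := by
          rintro d d' hd hd' hdz' ⟨w, hw1, hw2⟩ hdd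
          have h3 : w < d' := by
            by_contra h4
            have h5 : d' ∈ W m d := (hWc m d).out (hWm m d) hw1 ⟨hdd.le, not_lt.1 h4⟩
            exact absurd (hW m d d' hd' h5) hdd.ne'
          have h6 : d' ∈ W m z := (hWc m z).out hw2 (hWm m z) ⟨h3.le, hdz'.le⟩
          exact absurd (hW m z d' hd' h6) hdz'.ne
        rintro d ⟨hd, hdz, hdw⟩ d' ⟨hd', hdz', hdw'⟩
        rcases lt_trichotomy d d' with h3 | h3 | h3
        · exact (h2 d d' hd hd' hdz' hdw h3).elim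
        · exact h3
        · exact (h2 d' d hd' hd hdz hdw' h3).elim
      · apply Set.Subsingleton.finite
        have h2 : ∀ d d', d ∈ D m → d' ∈ D m → z < d → (W m d' ∩ W m z).Nonempty → d < d' → False := by
          rintro d d' hd hd' hdz' ⟨w, hw1, hw2⟩ hdd
          have h3 : d < w := by
            by_contra h4
            have h5 : d ∈ W m d' := (hWc m d').out hw1 (hWm m d') ⟨not_lt.1 h4, hdd.le⟩
            exact absurd (hW m d' d hd h5) hdd.ne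
          have h6 : d ∈ W m z := (hWc m z).out (hWm m z) hw2 ⟨hdz'.le, h3.le⟩
          exact absurd (hW m z d hd h6) hdz'.ne'
        rintro d ⟨hd, hdz, hdw⟩ d' ⟨hd', hdz', hdw'⟩
        rcases lt_trichotomy d d' with h3 | h3 | h3
        · exact (h2 d d' hd hd' hdz hdw' h3).elim
        · exact h3
        · exact (h2 d' d hd' hd hdz' hdw h3).elim
  · intro x U hU
    by_cases hx : ∃ m, x ∈ D m
    · obtain ⟨m, hm⟩ := hx
      obtain ⟨k, hk⟩ := hR2 x U hU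
      obtain ⟨l, hl⟩ := hL2 x U hU
      refine ⟨Sum.inr (m, k, l), R x k ∩ L x l ∩ W m x, ⟨x, hm, rfl⟩,
        ⟨⟨(hR x k).2, (hL x l).2⟩, hWm m x⟩, ?_⟩
      rintro y ⟨⟨hy1, hy2⟩, -⟩
      rcases le_total x y with h1 | h1
      · exact hk y hy1 h1
      · exact hl y hy2 h1
    · push Not at hx
      obtain ⟨h1, h2⟩ := hone x hx
      obtain ⟨V, hVU, hVo, hVc, hVm⟩ := h.bas x U hU
      obtain ⟨y, hy, hxy⟩ := h.right_pt h1 (hVo.mem_nhds hVm)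
      obtain ⟨y', hxy', hyy'⟩ := h.right_dense h1 hxy
      obtain ⟨m1, e, he, he1, he2⟩ := hsep y' y hyy'
      obtain ⟨u, hu, hxu⟩ := h.left_pt h2 (hVo.mem_nhds hVm)
      obtain ⟨u', hxu', huu'⟩ := h.left_dense h2 hxu
      obtain ⟨m2, e', he', he1', he2'⟩ := hsep u u' huu'
      have h3 : e ∈ D (max m1 m2) := hmono _ _ (le_max_left _ _) he
      have h4 : e' ∈ D (max m1 m2) := hmono _ _ (le_max_right _ _) he'
      refine ⟨Sum.inl (max m1 m2), cls (D (max m1 m2)) x, ⟨x, hx _, rfl⟩, cls_refl (hx _), ?_⟩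
      intro w hw
      apply hVU
      apply hVc.out hu hy
      constructor
      · by_contra h5
        have h6 : w ≤ e' := (not_le.1 h5).le.trans he1'
        apply hw e' h4
        rw [uIcc_of_ge (h6.trans (he2'.trans hxu'.le))]
        exact ⟨h6, he2'.trans hxu'.le⟩
      · by_contra h5
        have h6 : e ≤ w := he2.trans (not_le.1 h5).le
        apply hw e h3
        rw [uIcc_of_le ((hxy'.le.trans he1).trans h6)]
        exact ⟨hxy'.le.trans he1, h6⟩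

end Pool.Agent.H893R2
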